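import Pool.Agent.Helper48.RC.LocInt

set_option autoImplicit false

/-! # Integrability near a point of small multiplicity -/

namespace Pool.Agent.Helper48.RC

open MvPolynomial MeasureTheory Filter Topology Set

variable {σ : Type} [Fintype σ]

/-- integrability from the volumes of the sublevel sets -/
theorem integrable_of_sublevel {u : (σ → ℝ) → ℝ} (hu : Continuous u) {B : Set (σ → ℝ)}
    (hB : MeasurableSet B) (hBfin : volume B ≠ ⊤) {A e s : ℝ} (hA : 0 ≤ A) (hs : 0 < s) (hse : s < e)
    (h : ∀ ε : ℝ, 0 < ε → volume (B ∩ {x | |u x| ≤ ε}) ≤ ENNReal.ofReal (A * ε ^ e)) :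
    IntegrableOn (fun x => |u x| ^ (-s)) B := by
  refine ⟨(hu.abs.measurable.pow_const (-s)).aestronglyMeasurable, ?_⟩
  rw [hasFiniteIntegral_iff_ofReal (Eventually.of_forall fun x => Real.rpow_nonneg (abs_nonneg _) _)]
  set f : (σ → ℝ) → ENNReal := fun x => ENNReal.ofReal (|u x| ^ (-s)) with hf
  set S : ℕ → Set (σ → ℝ) := fun k => B ∩ {x | (1 / 2 : ℝ) ^ (k + 1) < |u x| ∧ |u x| ≤ (1 / 2) ^ k}
    with hS
  have hSm : ∀ k, MeasurableSet (S k) := fun k => hB.inter
    ((measurableSet_lt measurable_const hu.abs.measurable).inter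
      (measurableSet_le hu.abs.measurable measurable_const))
  set T : Set (σ → ℝ) := B ∩ {x | 1 < |u x| ∨ u x = 0} with hT
  have hTm : MeasurableSet T := hB.inter
    ((measurableSet_lt measurable_const hu.abs.measurable).union
      (measurableSet_eq_fun hu.measurable measurable_const))
  have hcov : B ⊆ T ∪ ⋃ k, S k := by
    intro x hx
    by_cases h1 : 1 < |u x| ∨ u x = 0
    · exact Or.inl ⟨hx, h1⟩
    · rw [not_or, not_lt] at h1
      obtain ⟨k, hk, hk'⟩ := exists_nat_pow_near_of_lt_one (y := (1 / 2 : ℝ)) (x := |u x|)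
        (abs_pos.2 h1.2) h1.1 (by norm_num) (by norm_num)
      exact Or.inr (mem_iUnion.2 ⟨k, hx, hk, hk'⟩)
  have hT1 : ∫⁻ x in T, f x ≤ volume B := by
    calc ∫⁻ x in T, f x ≤ ∫⁻ x in T, 1 := by
          refine setLIntegral_mono' hTm fun x hx => ?_
          rw [hf]
          change ENNReal.ofReal (|u x| ^ (-s)) ≤ 1
          rw [ENNReal.ofReal_le_one]
          rcases hx.2 with h1 | h1
          · exact Real.rpow_le_one_of_one_le_of_nonpos h1.le (by linarith)
          · rw [h1, abs_zero, Real.zero_rpow (by linarith)]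
            exact zero_le_one
      _ = volume T := by rw [lintegral_one, Measure.restrict_apply_univ]
      _ ≤ volume B := measure_mono inter_subset_left
  have hS1 : ∀ k : ℕ, ∫⁻ x in S k, f x ≤
      ENNReal.ofReal (2 ^ s * A) * (ENNReal.ofReal ((1 / 2 : ℝ) ^ (e - s))) ^ k := by
    intro k
    have h2 : ∫⁻ x in S k, f x ≤ ∫⁻ x in S k, ENNReal.ofReal (((1 / 2 : ℝ) ^ (k + 1)) ^ (-s)) := by
      refine setLIntegral_mono' (hSm k) fun x hx => ?_
      rw [hf]
      refine ENNReal.ofReal_le_ofReal ?_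
      exact Real.rpow_le_rpow_of_nonpos (by positivity) hx.2.1.le (by linarith)
    refine h2.trans ?_
    rw [lintegral_const, Measure.restrict_apply_univ]
    have h3 : volume (S k) ≤ ENNReal.ofReal (A * ((1 / 2 : ℝ) ^ k) ^ e) := by
      refine (measure_mono ?_).trans (h _ (by positivity))
      rintro x ⟨h4, h5, h6⟩
      exact ⟨h4, h6⟩
    calc ENNReal.ofReal (((1 / 2 : ℝ) ^ (k + 1)) ^ (-s)) * volume (S k) ≤
        ENNReal.ofReal (((1 / 2 : ℝ) ^ (k + 1)) ^ (-s)) *
          ENNReal.ofReal (A * ((1 / 2 : ℝ) ^ k) ^ e) := by gcongr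
      _ = ENNReal.ofReal (2 ^ s * A) * (ENNReal.ofReal ((1 / 2 : ℝ) ^ (e - s))) ^ k := by
          rw [← ENNReal.ofReal_mul (by positivity), ← ENNReal.ofReal_pow (by positivity),
            ← ENNReal.ofReal_mul (by positivity)]
          congr 1
          have h7 : ((1 / 2 : ℝ) ^ (k + 1)) ^ (-s) = 2 ^ s * ((1 / 2 : ℝ) ^ k) ^ (-s) := by
            rw [pow_succ, Real.mul_rpow (by positivity) (by positivity), mul_comm]
            congr 1
            rw [one_div, Real.inv_rpow (by norm_num), ← Real.rpow_neg (by norm_num), neg_neg]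
          have h8 : (((1 / 2 : ℝ) ^ (e - s)) ^ k : ℝ) = ((1 / 2 : ℝ) ^ k) ^ (-s) * ((1 / 2 : ℝ) ^ k) ^ e := by
            rw [← Real.rpow_add (by positivity), ← Real.rpow_natCast, ← Real.rpow_natCast,
              ← Real.rpow_mul (by norm_num), ← Real.rpow_mul (by norm_num)]
            congr 1
            ring
          rw [h7, h8]
          ring
  calc ∫⁻ x in B, f x ≤ ∫⁻ x in T ∪ ⋃ k, S k, f x := lintegral_mono_set hcov
    _ ≤ (∫⁻ x in T, f x) + ∫⁻ x in ⋃ k, S k, f x := lintegral_union_le _ _ _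
    _ ≤ volume B + ∑' k, ENNReal.ofReal (2 ^ s * A) *
        (ENNReal.ofReal ((1 / 2 : ℝ) ^ (e - s))) ^ k :=
      add_le_add hT1 ((lintegral_iUnion_le _ _).trans (ENNReal.tsum_le_tsum hS1))
    _ < ⊤ := by
      rw [ENNReal.tsum_mul_left, ENNReal.tsum_geometric]
      refine ENNReal.add_lt_top.2 ⟨hBfin.lt_top, ENNReal.mul_lt_top ENNReal.ofReal_lt_top ?_⟩
      rw [ENNReal.inv_lt_top, tsub_pos_iff_lt, ENNReal.ofReal_lt_one]
      exact Real.rpow_lt_one (by norm_num) (by norm_num) (by linarith)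

/-- integrability at a point where the order of `g` along a line is small -/
theorem integrable_of_order (g : MvPolynomial σ ℝ) (x₀ v : σ → ℝ) (m : ℕ) (s : ℝ) (hs : 0 < s)
    (hm : (m : ℝ) * s < 1) (h : iteratedDeriv m (fun t : ℝ => eval (x₀ + t • v) g) 0 ≠ 0) :
    ∃ r : ℝ, 0 < r ∧ IntegrableOn (fun x => |eval x g| ^ (-s)) (Metric.closedBall x₀ r) := by
  rw [iteratedDeriv_line] at h
  simp only [zero_smul, add_zero] at h
  have hBfin : ∀ r : ℝ, volume (Metric.closedBall x₀ r) ≠ ⊤ := fun r =>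
    (isCompact_closedBall x₀ r).measure_lt_top.ne
  rcases Nat.eq_zero_or_pos m with rfl | hmpos
  · -- `g` does not vanish at `x₀`
    have h0 : ev g x₀ ≠ 0 := h
    set c : ℝ := |ev g x₀| / 2 with hc
    have hc0 : 0 < c := by
      have := abs_pos.2 h0
      positivity
    have h1 : ∀ᶠ x in 𝓝 x₀, c < |ev g x| := by
      refine (continuous_ev g).abs.continuousAt.eventually_const_lt ?_
      have := abs_pos.2 h0
      rw [hc]
      linarith
    obtain ⟨R, hR, hR'⟩ := Metric.eventually_nhds_iff.1 h1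
    refine ⟨R / 2, by positivity, ?_⟩
    have h2 : IntegrableOn (fun _ : σ → ℝ => c ^ (-s)) (Metric.closedBall x₀ (R / 2)) := by
      refine integrableOn_const (hs := hBfin _)
    refine Integrable.mono' h2 ?_ ?_
    · exact ((continuous_ev g).abs.measurable.pow_const (-s)).aestronglyMeasurable
    · rw [ae_restrict_iff' Metric.isClosed_closedBall.measurableSet]
      refine Eventually.of_forall fun x hx => ?_
      have h3 : c < |eval x g| := hR' (by
        have : dist x x₀ ≤ R / 2 := hx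
        linarith)
      rw [Real.norm_eq_abs, abs_of_nonneg (Real.rpow_nonneg (abs_nonneg _) _)]
      exact Real.rpow_le_rpow_of_nonpos hc0 h3.le (by linarith)
  · obtain ⟨j, rfl⟩ : ∃ j, m = j + 1 := ⟨m - 1, by omega⟩
    have hse : s < 1 / ((j : ℝ) + 1) := by
      rw [lt_div_iff₀ (by positivity)]
      push_cast at hm
      linarith
    -- the sign
    obtain ⟨g', hg', hpos⟩ : ∃ g' : MvPolynomial σ ℝ, (∀ x, |ev g' x| = |ev g x|) ∧
        0 < ev (dvi v g' (j + 1)) x₀ := by
      rcases lt_or_gt_of_ne h with h1 | h1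
      · refine ⟨-g, fun x => ?_, ?_⟩
        · rw [ev, ev, map_neg, abs_neg]
        · rw [dvi_neg, ev, map_neg]
          have : ev (dvi v g (j + 1)) x₀ < 0 := h1
          rw [ev] at this
          linarith
      · exact ⟨g, fun x => rfl, h1⟩
    obtain ⟨r, hr, A, hA, hA'⟩ := volume_sublevel_pos g' x₀ v j hpos
    refine ⟨r, hr, ?_⟩
    have h1 := integrable_of_sublevel (continuous_ev g') Metric.isClosed_closedBall.measurableSet
      (hBfin r) hA hs hse hA'
    have h2 : (fun x => |ev g' x| ^ (-s)) = fun x => |eval x g| ^ (-s) := by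
      funext x
      rw [hg' x]
      rfl
    rw [h2] at h1
    exact h1

/-- from the points of a compact set to the set -/
theorem integrableOn_of_local {f : (σ → ℝ) → ℝ} {Δ K : Set (σ → ℝ)} (hK : IsCompact K)
    (h : ∀ x ∈ K, IntegrableAtFilter f (𝓝[Δ] x) volume) : IntegrableOn f (Δ ∩ K) := by
  refine hK.induction_on (p := fun s => IntegrableOn f (Δ ∩ s)) ?_ ?_ ?_ ?_
  · rw [inter_empty]
    exact integrableOn_empty
  · intro s t hst ht
    exact ht.mono_set (inter_subset_inter_right _ hst)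
  · intro s t hs ht
    rw [inter_union_distrib_left]
    exact hs.union ht
  · intro x hx
    obtain ⟨s, hs, hs'⟩ := h x hx
    rw [mem_nhdsWithin] at hs
    obtain ⟨U, hUo, hxU, hU⟩ := hs
    refine ⟨U, mem_nhdsWithin_of_mem_nhds (hUo.mem_nhds hxU), ?_⟩
    rw [inter_comm]
    exact hs'.mono_set hU

end Pool.Agent.Helper48.RC
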