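import Pool.Agent.Helper48.RC.Root
import Pool.Agent.Helper48.RC.Mult

set_option autoImplicit false

/-! # Forms with a good real chamber -/

namespace Pool.Agent.Helper48.RC

open MvPolynomial MeasureTheory Filter Topology Set Pool.Agent.H628R4.TP

/-- `Δ` is a good chamber of the real polynomial `g` in `n` variables, for the degree `d`: a nonempty
open cone in `ℝ^n`, such that `g` has no zeros on `Δ` and is zero on the boundary of `Δ`, and such
that for every point `x ≠ 0` of the closure of `Δ`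
* either the multiplicity of `g` at `x` is less than `d/n`, that is, the restriction of `g` to some
  line through `x` vanishes at `x` to an order less than `d/n`,
* or `|g| ^ (-n/d)` is integrable on the intersection of `Δ` with a neighbourhood of `x`. -/
def GoodChamber {n : ℕ} (g : MvPolynomial (Fin n) ℝ) (d : ℕ) (Δ : Set (Fin n → ℝ)) : Prop :=
  IsOpen Δ ∧ Δ.Nonempty ∧ (∀ x ∈ Δ, ∀ t : ℝ, 0 < t → t • x ∈ Δ) ∧
  (∀ x ∈ Δ, eval x g ≠ 0) ∧ (∀ x ∈ frontier Δ, eval x g = 0) ∧
  ∀ x ∈ closure Δ, x ≠ 0 →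
    (∃ (v : Fin n → ℝ) (j : ℕ), n * j < d ∧
      iteratedDeriv j (fun t : ℝ => eval (x + t • v) g) 0 ≠ 0) ∨
    IntegrableAtFilter (fun y => |eval y g| ^ (-(n : ℝ) / d)) (𝓝[Δ] x) volume

theorem eval_smul_hom {n d : ℕ} (g : MvPolynomial (Fin n) ℝ) (hg : g.IsHomogeneous d) (t : ℝ)
    (x : Fin n → ℝ) : eval (t • x) g = t ^ d * eval x g := by
  rw [eval_eq, eval_eq, Finset.mul_sum]
  refine Finset.sum_congr rfl fun m hm => ?_
  have h1 : m.degree = d := by
    by_contra h
    exact mem_support_iff.1 hm (hg.coeff_eq_zero h)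
  have h2 : ∏ i ∈ m.support, (t • x) i ^ m i = t ^ d * ∏ i ∈ m.support, x i ^ m i := by
    have h3 : ∀ i ∈ m.support, (t • x) i ^ m i = t ^ m i * x i ^ m i := fun i _ => by
      rw [Pi.smul_apply, smul_eq_mul, mul_pow]
    rw [Finset.prod_congr rfl h3, Finset.prod_mul_distrib, Finset.prod_pow_eq_pow_sum]
    congr 2
  rw [h2]
  ring

/-- a good chamber contains a wedge -/
theorem wedge_of_good {n d : ℕ} (hd : 0 < d) {g : MvPolynomial (Fin n) ℝ}
    (hg : g.IsHomogeneous d) {Δ : Set (Fin n → ℝ)} (h : GoodChamber g d Δ) :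
    ∃ (g' : MvPolynomial (Fin n) ℝ) (Δ' : Set (Fin n → ℝ)), (g' = g ∨ g' = -g) ∧
      Wedge (ev g') d Δ' ∧ ∀ x ∈ frontier Δ', eval x g' = 0 := by
  obtain ⟨hopen, ⟨x₁, hx₁⟩, hcone, hne, hfr, hloc⟩ := h
  obtain ⟨g', hg', hpos⟩ : ∃ g' : MvPolynomial (Fin n) ℝ, (g' = g ∨ g' = -g) ∧ 0 < eval x₁ g' := by
    rcases lt_or_gt_of_ne (hne x₁ hx₁) with h1 | h1
    · exact ⟨-g, Or.inr rfl, by rw [map_neg]; linarith⟩
    · exact ⟨g, Or.inl rfl, h1⟩
  have habs : ∀ x, |eval x g'| = |eval x g| := by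
    intro x
    rcases hg' with rfl | rfl
    · rfl
    · rw [map_neg, abs_neg]
  have hg'hom : g'.IsHomogeneous d := by
    rcases hg' with rfl | rfl
    · exact hg
    · exact hg.neg
  have hzero : ∀ x, eval x g = 0 → eval x g' = 0 := by
    intro x hx
    rw [← abs_eq_zero, habs, hx, abs_zero]
  have hcont : Continuous (ev g') := continuous_ev g'
  set Δ' : Set (Fin n → ℝ) := Δ ∩ {x | 0 < eval x g'} with hΔ'
  have hΔ'o : IsOpen Δ' := hopen.inter (isOpen_lt continuous_const hcont)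
  have hsub : Δ' ⊆ Δ := inter_subset_left
  refine ⟨g', Δ', hg', ⟨hd, hcont, fun t _ x => eval_smul_hom g' hg'hom t x, hΔ'o, ⟨x₁, hx₁, hpos⟩,
    ?_, fun x hx => hx.2, ?_⟩, ?_⟩
  · rintro x ⟨hx, hx'⟩ t ht
    refine ⟨hcone x hx t ht, ?_⟩
    rw [mem_ofPred_eq, eval_smul_hom g' hg'hom]
    exact mul_pos (pow_pos ht d) hx'
  · -- integrability
    set K : Set (Fin n → ℝ) := closure Δ' ∩ {x | 1 ≤ ‖x‖ ∧ ‖x‖ ≤ 2} with hK
    have hKc : IsCompact K := by
      refine (isCompact_closedBall (0 : Fin n → ℝ) 2).of_isClosed_subset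
        (isClosed_closure.inter ((isClosed_le continuous_const continuous_norm).inter
          (isClosed_le continuous_norm continuous_const))) ?_
      rintro x ⟨_, _, hx⟩
      rwa [mem_closedBall_zero_iff]
    have h1 : ∀ x ∈ K, IntegrableAtFilter (fun y => |eval y g| ^ (-(n : ℝ) / d)) (𝓝[Δ'] x)
        volume := by
      rintro x ⟨hx, hx1, hx2⟩
      have hx0 : x ≠ 0 := by
        rintro rfl
        rw [norm_zero] at hx1
        linarith
      have hn : 0 < n := by
        rcases Nat.eq_zero_or_pos n with rfl | hn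
        · exact absurd (Subsingleton.elim x 0) hx0
        · exact hn
      rcases hloc x (closure_mono hsub hx) hx0 with ⟨v, j, hj, hj'⟩ | h2
      · have hd' : (0 : ℝ) < d := by exact_mod_cast hd
        have hn' : (0 : ℝ) < n := by exact_mod_cast hn
        obtain ⟨r, hr, hint⟩ := integrable_of_order g x v j ((n : ℝ) / d) (div_pos hn' hd') (by
          rw [mul_div_assoc', div_lt_one hd', mul_comm]
          exact_mod_cast hj) hj'
        refine ⟨Metric.closedBall x r, mem_nhdsWithin_of_mem_nhds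
          (Metric.closedBall_mem_nhds x hr), ?_⟩
        rw [neg_div]
        exact hint
      · exact h2.filter_mono (nhdsWithin_mono x hsub)
    have h2 := integrableOn_of_local hKc h1
    have h3 : Δ' ∩ {x | 1 ≤ ‖x‖ ∧ ‖x‖ ≤ 2} ⊆ Δ' ∩ K := by
      rintro x ⟨hx, hx'⟩
      exact ⟨hx, subset_closure hx, hx'⟩
    have h4 := h2.mono_set h3
    have h5 : MeasurableSet (Δ' ∩ {x : Fin n → ℝ | 1 ≤ ‖x‖ ∧ ‖x‖ ≤ 2}) :=
      hΔ'o.measurableSet.inter ((measurableSet_le measurable_const measurable_norm).inter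
        (measurableSet_le measurable_norm measurable_const))
    refine h4.congr_fun (fun x hx => ?_) h5
    change |eval x g| ^ (-(n : ℝ) / d) = (eval x g') ^ (-(Fintype.card (Fin n) : ℝ) / d)
    rw [← habs, Fintype.card_fin, abs_of_pos hx.1.2]
  · intro x hx
    rw [hΔ'o.frontier_eq] at hx
    by_cases hxΔ : x ∈ Δ
    · have h1 : 0 ≤ eval x g' := by
        have h2 : closure Δ' ⊆ {y | 0 ≤ ev g' y} :=
          closure_minimal (fun y hy => (show 0 < ev g' y from hy.2).le)
            (isClosed_le continuous_const hcont)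
        exact h2 hx.1
      rcases h1.eq_or_lt with h2 | h2
      · exact h2.symm
      · exact absurd ⟨hxΔ, h2⟩ hx.2
    · refine hzero x (hfr x ?_)
      rw [hopen.frontier_eq]
      exact ⟨closure_mono hsub hx.1, hxΔ⟩

/-- **The root `-n/d`.** -/
theorem root_of_chamber {k : Type} [Field k] {n d : ℕ} (hd : 0 < d) (ι : k →+* ℂ) (τ : k →+* ℝ)
    (f : MvPolynomial (Fin n) k) (hf : f.IsHomogeneous d) (Δ : Set (Fin n → ℝ))
    (h : GoodChamber (map τ f) d Δ) (b : Polynomial ℂ) (hb : IsBFunction (map ι f) b) :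
    b.eval (-(n : ℂ) / d) = 0 := by
  by_contra hne
  set q : ℚ := -(n : ℚ) / d with hq
  have h1 : ((q : ℚ) : ℂ) = -(n : ℂ) / d := by
    rw [hq]
    push_cast
    rfl
  obtain ⟨b', hb', hb'q⟩ := nf_transfer ι τ f b (nf_of_isBFunction _ b hb) q (by rwa [h1])
  obtain ⟨g', Δ', hg', W, hfr⟩ := wedge_of_good hd (hf.map τ) h
  have h2 : NF g' b' := by
    rcases hg' with rfl | rfl
    · exact hb'
    · exact nf_neg _ _ hb'
  apply hb'q
  have h3 := W.root hfr b' h2
  rw [Fintype.card_fin] at h3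
  rw [hq]
  push_cast
  rw [neg_div]
  exact h3

end Pool.Agent.Helper48.RC
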