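import Mathlib
import Pool.Graph.R_seed8.H628R4.TP.Defs

set_option autoImplicit false

/-! # Normal form of a functional equation, and its descent to a subfield -/

namespace Pool.Agent.Helper48.RC

open MvPolynomial Pool.Agent.H628R4.TP

section Gen

variable {σ K : Type} [Field K]

/-- iterated partial derivative -/
noncomputable def dd (β : List σ) (h : MvPolynomial σ K) : MvPolynomial σ K :=
  β.foldr (fun i q => pderiv i q) h

theorem dd_nil (h : MvPolynomial σ K) : dd [] h = h := rfl

theorem dd_cons (i : σ) (β : List σ) (h : MvPolynomial σ K) : dd (i :: β) h = pderiv i (dd β h) := rfl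

/-- the sequence `s ↦ s ^ m p D^β (f ^ (s + 1))` -/
noncomputable def gen (f : MvPolynomial σ K) (m : ℕ) (p : MvPolynomial σ K) (β : List σ) :
    ℕ → MvPolynomial σ K := fun s => C ((s : K) ^ m) * (p * dd β (f ^ (s + 1)))

/-- the right hand sides of functional equations -/
noncomputable def Fam (f : MvPolynomial σ K) : AddSubmonoid (ℕ → MvPolynomial σ K) :=
  AddSubmonoid.closure {E | ∃ m p β, E = gen f m p β}

theorem gen_mem (f : MvPolynomial σ K) (m : ℕ) (p : MvPolynomial σ K) (β : List σ) :
    gen f m p β ∈ Fam f := AddSubmonoid.subset_closure ⟨m, p, β, rfl⟩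

/-- a functional equation -/
def NF (f : MvPolynomial σ K) (b : Polynomial K) : Prop :=
  (fun s : ℕ => C (b.eval (s : K)) * f ^ s) ∈ Fam f

/-- an additive map of the sequences which respects the generators -/
theorem fam_map {K' : Type} [Field K'] (f : MvPolynomial σ K) (f' : MvPolynomial σ K')
    (Φ : ℕ → MvPolynomial σ K → MvPolynomial σ K') (h0 : ∀ s, Φ s 0 = 0)
    (hadd : ∀ s p q, Φ s (p + q) = Φ s p + Φ s q)
    (hgen : ∀ m p β, (fun s => Φ s (gen f m p β s)) ∈ Fam f') (E : ℕ → MvPolynomial σ K)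
    (hE : E ∈ Fam f) : (fun s => Φ s (E s)) ∈ Fam f' := by
  refine AddSubmonoid.closure_induction (motive := fun E _ => (fun s => Φ s (E s)) ∈ Fam f')
    ?_ ?_ ?_ hE
  · rintro E ⟨m, p, β, rfl⟩
    exact hgen m p β
  · have h1 : (fun s => Φ s ((0 : ℕ → MvPolynomial σ K) s)) = 0 := by
      funext s
      exact h0 s
    rw [h1]
    exact (Fam f').zero_mem
  · intro E₁ E₂ _ _ h1 h2
    have h3 : (fun s => Φ s ((E₁ + E₂) s)) = (fun s => Φ s (E₁ s)) + fun s => Φ s (E₂ s) := by
      funext s
      exact hadd s _ _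
    rw [h3]
    exact (Fam f').add_mem h1 h2

theorem nf_neg (f : MvPolynomial σ K) (b : Polynomial K) (h : NF f b) : NF (-f) b := by
  have h1 := fam_map f (-f) (fun s p => (-1) ^ s * p) (fun s => mul_zero _)
    (fun s p q => mul_add _ _ _) (fun m p β => ?_) _ h
  · have h2 : (fun s : ℕ => C (b.eval (s : K)) * (-f) ^ s) =
        fun s : ℕ => (-1) ^ s * (C (b.eval (s : K)) * f ^ s) := by
      funext s
      rw [neg_pow f s]
      ring
    rw [NF, h2]
    exact h1
  · have h3 : (fun s : ℕ => (-1) ^ s * gen f m p β s) = gen (-f) m (-p) β := by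
      funext s
      have h4 : ∀ h : MvPolynomial σ K, dd β (-h) = -dd β h := by
        intro h
        induction β with
        | nil => rfl
        | cons i β ih => rw [dd_cons, dd_cons, ih, map_neg]
      have h5 : dd β ((-f) ^ (s + 1)) = (-1) ^ (s + 1) * dd β (f ^ (s + 1)) := by
        rcases Nat.even_or_odd (s + 1) with he | ho
        · rw [he.neg_pow, he.neg_one_pow, one_mul]
        · rw [ho.neg_pow, ho.neg_one_pow, h4, neg_one_mul]
      rw [gen, gen, h5]
      ring
    rw [h3]
    exact gen_mem _ _ _ _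

end Gen

/-- functional equations in terms of the Weyl algebra -/
theorem nf_of_isBFunction {σ : Type} (f : MvPolynomial σ ℂ) (b : Polynomial ℂ)
    (h : IsBFunction f b) : NF f b := by
  obtain ⟨P, hP⟩ := h
  have h1 : ∀ Q : Module.End ℂ (MvPolynomial σ ℂ), Q ∈ weylS σ → ∀ E ∈ Fam f,
      (fun s => Q (E s)) ∈ Fam f := by
    intro Q hQ
    refine Algebra.adjoin_induction (p := fun Q _ => ∀ E ∈ Fam f, (fun s => Q (E s)) ∈ Fam f)
      ?_ ?_ ?_ ?_ hQ
    · rintro Q (⟨i, rfl⟩ | ⟨i, rfl⟩) E hE
      · refine fam_map f f (fun s p => LinearMap.mulLeft ℂ (X i : MvPolynomial σ ℂ) p)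
          (fun s => map_zero _) (fun s p q => map_add _ _ _) (fun m p β => ?_) E hE
        have h2 : (fun s => LinearMap.mulLeft ℂ (X i : MvPolynomial σ ℂ) (gen f m p β s)) =
            gen f m (X i * p) β := by
          funext s
          rw [LinearMap.mulLeft_apply, gen, gen]
          ring
        rw [h2]
        exact gen_mem _ _ _ _
      · refine fam_map f f (fun s p => pderiv i p)
          (fun s => map_zero _) (fun s p q => map_add _ _ _) (fun m p β => ?_) E hE
        have h2 : (fun s => pderiv i (gen f m p β s)) =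
            gen f m (pderiv i p) β + gen f m p (i :: β) := by
          funext s
          rw [Pi.add_apply, gen, gen, gen, pderiv_C_mul, pderiv_mul, dd_cons]
          ring
        rw [h2]
        exact (Fam f).add_mem (gen_mem _ _ _ _) (gen_mem _ _ _ _)
    · intro r E hE
      refine fam_map f f (fun s p => algebraMap ℂ (Module.End ℂ (MvPolynomial σ ℂ)) r p)
        (fun s => map_zero _) (fun s p q => map_add _ _ _) (fun m p β => ?_) E hE
      have h2 : (fun s => algebraMap ℂ (Module.End ℂ (MvPolynomial σ ℂ)) r (gen f m p β s)) =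
          gen f m (C r * p) β := by
        funext s
        rw [Module.algebraMap_end_apply, smul_eq_C_mul, gen, gen]
        ring
      rw [h2]
      exact gen_mem _ _ _ _
    · intro Q₁ Q₂ _ _ h1 h2 E hE
      exact (Fam f).add_mem (h1 E hE) (h2 E hE)
    · intro Q₁ Q₂ _ _ h1 h2 E hE
      exact h1 _ (h2 E hE)
  have h2 : (fun s : ℕ => C (b.eval (s : ℂ)) * f ^ s) =
      ∑ m ∈ P.support, fun s : ℕ => (P m : Module.End ℂ (MvPolynomial σ ℂ))
        (gen f m 1 [] s) := by
    funext s
    rw [hP s, Finset.sum_apply, Finsupp.sum]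
    refine Finset.sum_congr rfl fun m _ => ?_
    rw [gen, dd_nil, one_mul, ← smul_eq_C_mul, map_smul]
  rw [NF, h2]
  exact (Fam f).sum_mem fun m _ => h1 _ (P m).2 _ (gen_mem _ _ _ _)

section Descent

variable {σ F E : Type} [Field F] [Field E] [Algebra F E] (ρ : E →ₗ[F] F)

/-- a linear functional applied to the coefficients -/
noncomputable def rhoHat (p : MvPolynomial σ E) : MvPolynomial σ F :=
  ∑ m ∈ p.support, monomial m (ρ (coeff m p))

theorem coeff_rhoHat (p : MvPolynomial σ E) (m : σ →₀ ℕ) :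
    coeff m (rhoHat ρ p) = ρ (coeff m p) := by
  classical
  rw [rhoHat, coeff_sum]
  simp only [coeff_monomial]
  rw [Finset.sum_ite_eq' p.support m]
  split_ifs with h
  · rfl
  · rw [notMem_support_iff.1 h, map_zero]

theorem rhoHat_add (p q : MvPolynomial σ E) :
    rhoHat ρ (p + q) = rhoHat ρ p + rhoHat ρ q := by
  ext m
  rw [coeff_add, coeff_rhoHat, coeff_rhoHat, coeff_rhoHat, coeff_add, map_add]

theorem rhoHat_zero : rhoHat ρ (0 : MvPolynomial σ E) = 0 := by
  ext m
  rw [coeff_rhoHat, coeff_zero, coeff_zero, map_zero]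

theorem rhoHat_mul (g : MvPolynomial σ F) (p : MvPolynomial σ E) :
    rhoHat ρ (map (algebraMap F E) g * p) = g * rhoHat ρ p := by
  classical
  ext m
  rw [coeff_rhoHat, coeff_mul, coeff_mul, map_sum]
  refine Finset.sum_congr rfl fun x _ => ?_
  rw [coeff_map, ← Algebra.smul_def, map_smul, smul_eq_mul, coeff_rhoHat]

theorem rhoHat_C (z : E) : rhoHat ρ (C z : MvPolynomial σ E) = C (ρ z) := by
  classical
  ext m
  rw [coeff_rhoHat, coeff_C, coeff_C]
  split_ifs
  · rfl
  · exact map_zero ρ

theorem map_dd {K K' : Type} [Field K] [Field K'] (φ : K →+* K') (β : List σ)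
    (h : MvPolynomial σ K) : map φ (dd β h) = dd β (map φ h) := by
  induction β with
  | nil => rfl
  | cons i β ih => rw [dd_cons, dd_cons, ← ih, pderiv_map]

/-- the descent of a functional equation -/
theorem nf_descent (f : MvPolynomial σ F) (b : Polynomial E)
    (h : NF (map (algebraMap F E) f) b) (b' : Polynomial F)
    (hb : ∀ s : ℕ, b'.eval (s : F) = ρ (b.eval (s : E))) : NF f b' := by
  have h1 := fam_map (map (algebraMap F E) f) f (fun s p => rhoHat ρ p) (fun s => rhoHat_zero ρ)
    (fun s p q => rhoHat_add ρ _ _) (fun m p β => ?_) _ h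
  · have h2 : (fun s : ℕ => C (b'.eval (s : F)) * f ^ s) =
        fun s : ℕ => rhoHat ρ (C (b.eval (s : E)) * (map (algebraMap F E) f) ^ s) := by
      funext s
      rw [mul_comm (C (b.eval (s : E))), ← map_pow, rhoHat_mul, rhoHat_C, hb, mul_comm]
    rw [NF, h2]
    exact h1
  · have h3 : (fun s => rhoHat ρ (gen (map (algebraMap F E) f) m p β s)) =
        gen f m (rhoHat ρ p) β := by
      funext s
      have h4 : (C ((s : E) ^ m) : MvPolynomial σ E) = map (algebraMap F E) (C ((s : F) ^ m)) := by
        rw [map_C (algebraMap F E), map_pow (algebraMap F E), map_natCast (algebraMap F E)]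
      rw [gen, gen, h4, rhoHat_mul, ← map_pow, ← map_dd, mul_comm p, rhoHat_mul, mul_comm (dd β _)]
    rw [h3]
    exact gen_mem _ _ _ _

theorem nf_map {K K' : Type} [Field K] [Field K'] (φ : K →+* K') (f : MvPolynomial σ K)
    (b : Polynomial K) (h : NF f b) : NF (map φ f) (b.map φ) := by
  have h1 := fam_map f (map φ f) (fun s p => map φ p) (fun s => map_zero _)
    (fun s p q => map_add _ _ _) (fun m p β => ?_) _ h
  · have h2 : (fun s : ℕ => C ((b.map φ).eval (s : K')) * (map φ f) ^ s) =
        fun s : ℕ => map φ (C (b.eval (s : K)) * f ^ s) := by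
      funext s
      have h3 : (b.map φ).eval (s : K') = φ (b.eval (s : K)) := by
        rw [← map_natCast φ s, Polynomial.eval_map_apply]
      rw [map_mul, map_C, map_pow, h3]
    rw [NF, h2]
    exact h1
  · have h3 : (fun s => map φ (gen f m p β s)) = gen (map φ f) m (map φ p) β := by
      funext s
      rw [gen, gen, map_mul, map_mul, map_C, map_dd, map_pow (map φ), map_pow φ, map_natCast φ]
    rw [h3]
    exact gen_mem _ _ _ _

end Descent

/-- from the complex numbers to the real numbers -/
theorem nf_transfer {k σ : Type} [Field k] (ι : k →+* ℂ) (τ : k →+* ℝ) (f : MvPolynomial σ k)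
    (b : Polynomial ℂ) (h : NF (map ι f) b) (q : ℚ) (hq : b.eval (q : ℂ) ≠ 0) :
    ∃ b' : Polynomial ℝ, NF (map τ f) b' ∧ b'.eval (q : ℝ) ≠ 0 := by
  classical
  let _ : Algebra k ℂ := ι.toAlgebra
  have hchar : CharZero k := by
    refine ⟨fun a b hab => ?_⟩
    have h1 := congrArg ι hab
    rw [map_natCast, map_natCast] at h1
    exact_mod_cast h1
  set z : ℂ := b.eval (q : ℂ) with hz
  -- a linear functional with `ρ z = 1`
  obtain ⟨ρ, hρ⟩ : ∃ ρ : ℂ →ₗ[k] k, ρ z = 1 := by
    obtain ⟨ρ, hρ⟩ := LinearMap.exists_leftInverse_of_injective (LinearMap.toSpanSingleton k ℂ z)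
      (LinearMap.ker_toSpanSingleton k hq)
    refine ⟨ρ, ?_⟩
    have := LinearMap.congr_fun hρ 1
    simpa using this
  set b₁ : Polynomial k := ∑ j ∈ b.support, Polynomial.monomial j (ρ (b.coeff j)) with hb₁
  have hev : ∀ r : ℚ, b₁.eval (r : k) = ρ (b.eval (r : ℂ)) := by
    intro r
    rw [hb₁, Polynomial.eval_finsetSum, Polynomial.eval_eq_sum, Polynomial.sum, map_sum]
    refine Finset.sum_congr rfl fun j _ => ?_
    rw [Polynomial.eval_monomial]
    have h1 : b.coeff j * (r : ℂ) ^ j = ((r : k) ^ j) • b.coeff j := by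
      rw [Algebra.smul_def]
      have h2 : algebraMap k ℂ ((r : k) ^ j) = (r : ℂ) ^ j := by
        rw [map_pow, map_ratCast]
      rw [h2, mul_comm]
    rw [h1, map_smul, smul_eq_mul, mul_comm]
  refine ⟨b₁.map τ, nf_map τ f b₁ (nf_descent ρ f b h b₁ fun s => ?_), ?_⟩
  · have h1 := hev (s : ℚ)
    rw [Rat.cast_natCast, Rat.cast_natCast] at h1
    exact h1
  · have h1 := hev q
    rw [← hz, hρ] at h1
    have h2 : (b₁.map τ).eval (q : ℝ) = τ (b₁.eval (q : k)) := by
      rw [← map_ratCast τ q, Polynomial.eval_map_apply]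
    rw [h2, h1, map_one]
    exact one_ne_zero

end Pool.Agent.Helper48.RC
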