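import Mathlib
import Pool.Graph.R_seed8.Helper777.PP.P_carlson

set_option autoImplicit false

/-! # Functions of exponential growth in a half plane which vanish at the integers -/

namespace Pool.Agent.Helper48.RC

open Filter Topology

/-- holomorphic for `Re z > -κ`, of growth at most `M ^ (Re z)` times a polynomial for
`Re z ≥ 1 - κ` -/
structure PB (κ M : ℝ) (G : ℂ → ℂ) : Prop where
  diff : DifferentiableOn ℂ G {z | -κ < z.re}
  bound : ∃ C : ℝ, 0 ≤ C ∧ ∃ K : ℕ, ∀ z : ℂ, -κ + 1 ≤ z.re →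
    ‖G z‖ ≤ C * (1 + ‖z‖) ^ K * M ^ z.re

variable {κ M : ℝ}

theorem PB.zero : PB κ M (fun _ => 0) := by
  refine ⟨differentiableOn_const _, 0, le_rfl, 0, fun z _ => ?_⟩
  simp

theorem PB.add (hM : 0 < M) {G₁ G₂ : ℂ → ℂ} (h₁ : PB κ M G₁) (h₂ : PB κ M G₂) :
    PB κ M (fun z => G₁ z + G₂ z) := by
  obtain ⟨C₁, hC₁, K₁, hK₁⟩ := h₁.bound
  obtain ⟨C₂, hC₂, K₂, hK₂⟩ := h₂.bound
  refine ⟨h₁.diff.add h₂.diff, C₁ + C₂, add_nonneg hC₁ hC₂, max K₁ K₂, fun z hz => ?_⟩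
  have h1 : (1 : ℝ) ≤ 1 + ‖z‖ := by linarith [norm_nonneg z]
  have h2 : (1 + ‖z‖) ^ K₁ ≤ (1 + ‖z‖) ^ max K₁ K₂ := pow_le_pow_right₀ h1 (le_max_left _ _)
  have h3 : (1 + ‖z‖) ^ K₂ ≤ (1 + ‖z‖) ^ max K₁ K₂ := pow_le_pow_right₀ h1 (le_max_right _ _)
  have h4 : 0 < M ^ z.re := Real.rpow_pos_of_pos hM _
  calc ‖G₁ z + G₂ z‖ ≤ ‖G₁ z‖ + ‖G₂ z‖ := norm_add_le _ _
    _ ≤ C₁ * (1 + ‖z‖) ^ K₁ * M ^ z.re + C₂ * (1 + ‖z‖) ^ K₂ * M ^ z.re :=
      add_le_add (hK₁ z hz) (hK₂ z hz)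
    _ ≤ C₁ * (1 + ‖z‖) ^ max K₁ K₂ * M ^ z.re + C₂ * (1 + ‖z‖) ^ max K₁ K₂ * M ^ z.re := by
      gcongr
    _ = (C₁ + C₂) * (1 + ‖z‖) ^ max K₁ K₂ * M ^ z.re := by ring

theorem PB.const_mul (c : ℂ) {G : ℂ → ℂ} (h : PB κ M G) :
    PB κ M (fun z => c * G z) := by
  obtain ⟨C, hC, K, hK⟩ := h.bound
  refine ⟨h.diff.const_mul c, ‖c‖ * C, mul_nonneg (norm_nonneg _) hC, K, fun z hz => ?_⟩
  rw [norm_mul, mul_assoc, mul_assoc]
  have := hK z hz
  rw [mul_assoc] at this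
  exact mul_le_mul_of_nonneg_left this (norm_nonneg _)

theorem PB.id_mul (hM : 0 < M) {G : ℂ → ℂ} (h : PB κ M G) :
    PB κ M (fun z => z * G z) := by
  obtain ⟨C, hC, K, hK⟩ := h.bound
  refine ⟨differentiableOn_id.mul h.diff, C, hC, K + 1, fun z hz => ?_⟩
  have h4 : 0 < M ^ z.re := Real.rpow_pos_of_pos hM _
  rw [norm_mul]
  calc ‖z‖ * ‖G z‖ ≤ (1 + ‖z‖) * (C * (1 + ‖z‖) ^ K * M ^ z.re) := by
        refine mul_le_mul (by linarith) (hK z hz) (norm_nonneg _) (by positivity)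
    _ = C * (1 + ‖z‖) ^ (K + 1) * M ^ z.re := by ring

theorem PB.pow_mul (hM : 0 < M) (m : ℕ) {G : ℂ → ℂ} (h : PB κ M G) :
    PB κ M (fun z => z ^ m * G z) := by
  induction m with
  | zero => simpa using h
  | succ m ih =>
    have h1 := ih.id_mul hM
    have h2 : (fun z => z ^ (m + 1) * G z) = fun z => z * (z ^ m * G z) := by
      funext z
      ring
    rw [h2]
    exact h1

theorem PB.poly_mul (hM : 0 < M) (b : Polynomial ℂ) {G : ℂ → ℂ} (h : PB κ M G) :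
    PB κ M (fun z => b.eval z * G z) := by
  induction b using Polynomial.induction_on' with
  | add p q hp hq =>
    have h2 : (fun z => (p + q).eval z * G z) = fun z => p.eval z * G z + q.eval z * G z := by
      funext z
      rw [Polynomial.eval_add, add_mul]
    rw [h2]
    exact hp.add hM hq
  | monomial m a =>
    have h2 : (fun z => (Polynomial.monomial m a).eval z * G z) = fun z => a * (z ^ m * G z) := by
      funext z
      rw [Polynomial.eval_monomial, mul_assoc]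
    rw [h2]
    exact (h.pow_mul hM m).const_mul a

theorem PB.sub (hM : 0 < M) {G₁ G₂ : ℂ → ℂ} (h₁ : PB κ M G₁) (h₂ : PB κ M G₂) :
    PB κ M (fun z => G₁ z - G₂ z) := by
  have h3 : (fun z => G₁ z - G₂ z) = fun z => G₁ z + (-1) * G₂ z := by
    funext z
    ring
  rw [h3]
  exact h₁.add hM (h₂.const_mul (-1))

theorem PB.vanish (hM : 0 < M) (hκ : 0 ≤ κ) {G : ℂ → ℂ} (h : PB κ M G)
    (h0 : ∀ᶠ s : ℕ in atTop, G s = 0) (z : ℂ) (hz : -κ < z.re) : G z = 0 := by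
  obtain ⟨C, hC, K, hK⟩ := h.bound
  have hM' : (M : ℂ) ≠ 0 := by exact_mod_cast hM.ne'
  set F : ℂ → ℂ := fun w => G (w - κ) * (M : ℂ) ^ (-w) with hF
  have h1 : DifferentiableOn ℂ F {w | 0 < w.re} := by
    refine DifferentiableOn.mul ?_ ?_
    · refine h.diff.comp (differentiableOn_id.sub_const _) fun w hw => ?_
      simp only [Set.mem_ofPred_eq, Complex.sub_re, Complex.ofReal_re] at hw ⊢
      linarith
    · intro w _
      exact (DifferentiableAt.const_cpow differentiableAt_id.neg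
        (Or.inl hM')).differentiableWithinAt
  have h2 : ∀ w : ℂ, 1 ≤ w.re → ‖F w‖ ≤ (C * (1 + κ) ^ K * M ^ (-κ)) * (1 + ‖w‖) ^ K := by
    intro w hw
    have h3 := hK (w - κ) (by rw [Complex.sub_re, Complex.ofReal_re]; linarith)
    rw [hF, norm_mul, Complex.norm_cpow_eq_rpow_re_of_pos hM, Complex.neg_re]
    have h4 : 1 + ‖w - κ‖ ≤ (1 + κ) * (1 + ‖w‖) := by
      have h5 : ‖w - κ‖ ≤ ‖w‖ + κ := by
        refine (norm_sub_le _ _).trans ?_
        rw [Complex.norm_real, Real.norm_eq_abs, abs_of_nonneg hκ]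
      nlinarith [norm_nonneg w, mul_nonneg hκ (norm_nonneg w)]
    have h6 : (1 + ‖w - κ‖) ^ K ≤ (1 + κ) ^ K * (1 + ‖w‖) ^ K := by
      rw [← mul_pow]
      exact pow_le_pow_left₀ (by positivity) h4 K
    have h7 : 0 < M ^ (w - κ).re := Real.rpow_pos_of_pos hM _
    have h8 : 0 < M ^ (-w.re) := Real.rpow_pos_of_pos hM _
    calc ‖G (w - κ)‖ * M ^ (-w.re) ≤
        (C * ((1 + κ) ^ K * (1 + ‖w‖) ^ K) * M ^ (w - κ).re) * M ^ (-w.re) := by
          refine mul_le_mul_of_nonneg_right (h3.trans ?_) h8.le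
          refine mul_le_mul_of_nonneg_right ?_ h7.le
          exact mul_le_mul_of_nonneg_left h6 hC
      _ = (C * (1 + κ) ^ K * (M ^ (w - κ).re * M ^ (-w.re))) * (1 + ‖w‖) ^ K := by ring
      _ = (C * (1 + κ) ^ K * M ^ (-κ)) * (1 + ‖w‖) ^ K := by
          rw [← Real.rpow_add hM, Complex.sub_re, Complex.ofReal_re]
          congr 3
          ring
  have h3 : ∀ᶠ a : ℕ in atTop, F (κ + a) = 0 := by
    filter_upwards [h0] with a ha
    rw [hF]
    change G ((κ : ℂ) + a - κ) * _ = 0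
    rw [add_sub_cancel_left, ha, zero_mul]
  have h4 := Pool.PlanePD.carlson F h1 _ K h2 κ h3 (z + κ) (by
    rw [Complex.add_re, Complex.ofReal_re]
    linarith)
  rw [hF] at h4
  change G (z + κ - κ) * (M : ℂ) ^ (-(z + κ)) = 0 at h4
  rw [add_sub_cancel_right] at h4
  rcases mul_eq_zero.1 h4 with h5 | h5
  · exact h5
  · rw [Complex.cpow_eq_zero_iff] at h5
    exact absurd h5.1 hM'

end Pool.Agent.Helper48.RC
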