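import Pool.Agent.Helper48.RC.Fam

set_option autoImplicit false

/-! # Integration by parts over a chamber of a real polynomial -/

namespace Pool.Agent.Helper48.RC

open MvPolynomial MeasureTheory Filter Topology
open scoped ContDiff

variable {σ : Type} [Fintype σ]

/-- the polynomial function -/
noncomputable def ev (h : MvPolynomial σ ℝ) (x : σ → ℝ) : ℝ := eval x h

omit [Fintype σ] in
theorem continuous_ev (h : MvPolynomial σ ℝ) : Continuous (ev h) := MvPolynomial.continuous_eval h

/-- a basis vector -/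
noncomputable def bv (i : σ) : σ → ℝ := by classical exact Pi.single i 1

omit [Fintype σ] in
theorem hasLineDerivAt_ev (h : MvPolynomial σ ℝ) (x : σ → ℝ) (i : σ) :
    HasLineDerivAt ℝ (ev h) (ev (pderiv i h) x) x (bv i) := by
  classical
  induction h using MvPolynomial.induction_on with
  | C a =>
    have h1 : ev (C a : MvPolynomial σ ℝ) = fun _ => a := by
      funext y
      rw [ev, eval_C]
    rw [h1, pderiv_C, ev, map_zero]
    exact hasDerivAt_const _ _
  | add p q hp hq =>
    have h1 : ev (p + q) = fun y => ev p y + ev q y := by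
      funext y
      rw [ev, ev, ev, map_add]
    rw [h1, map_add, ev, map_add]
    exact HasDerivAt.add hp hq
  | mul_X p j hp =>
    have h1 : ev (p * X j) = fun y => ev p y * y j := by
      funext y
      rw [ev, ev, map_mul, eval_X]
    have h2 : HasDerivAt (fun t : ℝ => (x + t • bv i) j) (bv i j) 0 := by
      have h3 : (fun t : ℝ => (x + t • bv i) j) = fun t : ℝ => x j + t * bv i j := by
        funext t
        rw [Pi.add_apply, Pi.smul_apply, smul_eq_mul]
      rw [h3]
      have h4 := ((hasDerivAt_id (0 : ℝ)).mul_const (bv i j)).const_add (x j)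
      rwa [one_mul] at h4
    have h3 := HasDerivAt.mul hp h2
    rw [h1]
    have h4 : ev (pderiv i (p * X j)) x = ev (pderiv i p) x * (x + (0 : ℝ) • bv i) j +
        ev p (x + (0 : ℝ) • bv i) * bv i j := by
      rw [zero_smul, add_zero, ev, pderiv_mul, map_add, map_mul, map_mul, eval_X, pderiv_X, ev, ev,
        bv]
      congr 1
      by_cases hij : i = j
      · subst hij
        rw [Pi.single_eq_same, Pi.single_eq_same, map_one]
      · rw [Pi.single_eq_of_ne (Ne.symm hij), Pi.single_eq_of_ne (Ne.symm hij), map_zero]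
    rw [h4]
    exact h3

/-- a test function -/
structure Test (ψ : (σ → ℝ) → ℝ) : Prop where
  smooth : ContDiff ℝ ∞ ψ
  supp : ∀ x, 2 < ‖x‖ → ψ x = 0

/-- the derivative of a test function -/
noncomputable def dt (i : σ) (ψ : (σ → ℝ) → ℝ) (x : σ → ℝ) : ℝ := fderiv ℝ ψ x (bv i)

theorem Test.dt {ψ : (σ → ℝ) → ℝ} (h : Test ψ) (i : σ) : Test (dt i ψ) := by
  refine ⟨?_, fun x hx => ?_⟩
  · have h1 : ContDiff ℝ ∞ (fderiv ℝ ψ) := h.smooth.fderiv_right (by norm_num)
    exact h1.clm_apply contDiff_const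
  · have h1 : ψ =ᶠ[𝓝 x] fun _ => 0 := by
      filter_upwards [(isOpen_lt continuous_const continuous_norm).mem_nhds hx] with y hy
      exact h.supp y hy
    rw [RC.dt, h1.fderiv_eq]
    simp

theorem Test.neg {ψ : (σ → ℝ) → ℝ} (h : Test ψ) : Test (fun x => -ψ x) :=
  ⟨h.smooth.neg, fun x hx => by rw [h.supp x hx, neg_zero]⟩

theorem contDiff_ev (h : MvPolynomial σ ℝ) : ContDiff ℝ ∞ (ev h) := by
  induction h using MvPolynomial.induction_on with
  | C a =>
    have h1 : ev (C a : MvPolynomial σ ℝ) = fun _ => a := by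
      funext y
      rw [ev, eval_C]
    rw [h1]
    exact contDiff_const
  | add p q hp hq =>
    have h1 : ev (p + q) = fun y => ev p y + ev q y := by
      funext y
      rw [ev, ev, ev, map_add]
    rw [h1]
    exact hp.add hq
  | mul_X p j hp =>
    have h1 : ev (p * X j) = fun y => ev p y * y j := by
      funext y
      rw [ev, ev, map_mul, eval_X]
    rw [h1]
    exact hp.mul (contDiff_apply ℝ ℝ j)

theorem Test.mul {ψ : (σ → ℝ) → ℝ} (h : Test ψ) (p : MvPolynomial σ ℝ) :
    Test (fun x => ev p x * ψ x) :=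
  ⟨(contDiff_ev p).mul h.smooth, fun x hx => by rw [h.supp x hx, mul_zero]⟩

theorem Test.hasCompactSupport {ψ : (σ → ℝ) → ℝ} (h : Test ψ) : HasCompactSupport ψ := by
  refine HasCompactSupport.intro (isCompact_closedBall (0 : σ → ℝ) 2) fun x hx => h.supp x ?_
  rwa [mem_closedBall_zero_iff, not_le] at hx

theorem Test.integrable {ψ : (σ → ℝ) → ℝ} (h : Test ψ) : Integrable ψ :=
  h.smooth.continuous.integrable_of_hasCompactSupport h.hasCompactSupport

theorem ibp {g h : MvPolynomial σ ℝ} {Δ : Set (σ → ℝ)} (hΔ : IsOpen Δ)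
    (hfr : ∀ x ∈ frontier Δ, eval x g = 0) (hgh : g ^ 2 ∣ h) {ψ : (σ → ℝ) → ℝ} (hψ : Test ψ)
    (i : σ) : ∫ x in Δ, ev (pderiv i h) x * ψ x = -∫ x in Δ, ev h x * dt i ψ x := by
  classical
  have hdd : g ∣ pderiv i h := by
    obtain ⟨q, rfl⟩ := hgh
    rw [pderiv_mul, pow_two, pderiv_mul]
    exact ⟨pderiv i g * q + pderiv i g * q + g * pderiv i q, by ring⟩
  have hz : ∀ p : MvPolynomial σ ℝ, g ∣ p → ∀ x ∈ frontier Δ, ev p x = 0 := by
    rintro p ⟨q, rfl⟩ x hx
    rw [ev, map_mul, hfr x hx, zero_mul]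
  have hgh' : g ∣ h := dvd_trans (Dvd.intro_left g (pow_two g).symm) hgh
  set H : (σ → ℝ) → ℝ := Δ.indicator (ev h) with hH
  set H' : (σ → ℝ) → ℝ := Δ.indicator (ev (pderiv i h)) with hH'
  have hder : ∀ x, HasLineDerivAt ℝ H (H' x) x (bv i) := by
    intro x
    by_cases hx : x ∈ Δ
    · have h1 : H =ᶠ[𝓝 x] ev h := by
        filter_upwards [hΔ.mem_nhds hx] with y hy
        rw [hH, Set.indicator_of_mem hy]
      rw [hH', Set.indicator_of_mem hx]
      exact (hasLineDerivAt_ev h x i).congr_of_eventuallyEq h1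
    · rw [hH', Set.indicator_of_notMem hx]
      by_cases hx2 : x ∈ closure Δ
      · have hx3 : x ∈ frontier Δ := by
          rw [hΔ.frontier_eq]
          exact ⟨hx2, hx⟩
        have h2 := hasLineDerivAt_ev h x i
        rw [hz _ hdd x hx3] at h2
        have h3 := hasDerivAt_iff_isLittleO.1 h2
        rw [HasLineDerivAt, hasDerivAt_iff_isLittleO]
        have h4 : H (x + (0 : ℝ) • bv i) = 0 := by
          rw [zero_smul, add_zero, hH, Set.indicator_of_notMem hx]
        have h5 : ev h (x + (0 : ℝ) • bv i) = 0 := by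
          rw [zero_smul, add_zero]
          exact hz _ hgh' x hx3
        refine Asymptotics.IsBigO.trans_isLittleO ?_ h3
        refine Asymptotics.isBigO_of_le _ fun t => ?_
        simp only [h4, h5, smul_zero, sub_zero]
        exact norm_indicator_le_norm_self (ev h) (x + t • bv i)
      · have h1 : H =ᶠ[𝓝 x] fun _ => 0 := by
          filter_upwards [isClosed_closure.isOpen_compl.mem_nhds hx2] with y hy
          rw [hH, Set.indicator_of_notMem (fun h => hy (subset_closure h))]
        have h2 : HasLineDerivAt ℝ (fun _ : σ → ℝ => (0 : ℝ)) 0 x (bv i) := hasDerivAt_const _ _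
        exact h2.congr_of_eventuallyEq h1
  have hder2 : ∀ x, HasLineDerivAt ℝ ψ (dt i ψ x) x (bv i) := fun x =>
    ((hψ.smooth.differentiable (by norm_num)) x).hasFDerivAt.hasLineDerivAt (bv i)
  have hint : ∀ (p : MvPolynomial σ ℝ) {χ : (σ → ℝ) → ℝ}, Test χ →
      Integrable (fun x => Δ.indicator (ev p) x * χ x) := by
    intro p χ hχ
    have h1 : (fun x => Δ.indicator (ev p) x * χ x) = Δ.indicator fun x => ev p x * χ x := by
      funext x
      by_cases hx : x ∈ Δ
      · rw [Set.indicator_of_mem hx, Set.indicator_of_mem hx]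
      · rw [Set.indicator_of_notMem hx, Set.indicator_of_notMem hx, zero_mul]
    rw [h1]
    exact (hχ.mul p).integrable.indicator hΔ.measurableSet
  have hset : ∀ (p : MvPolynomial σ ℝ) (χ : (σ → ℝ) → ℝ),
      ∫ x in Δ, ev p x * χ x = ∫ x, Δ.indicator (ev p) x * χ x := by
    intro p χ
    rw [← integral_indicator hΔ.measurableSet]
    congr 1
    funext x
    by_cases hx : x ∈ Δ
    · rw [Set.indicator_of_mem hx, Set.indicator_of_mem hx]
    · rw [Set.indicator_of_notMem hx, Set.indicator_of_notMem hx, zero_mul]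
  rw [hset, hset]
  have h1 := integral_bilinear_hasLineDerivAt_right_eq_neg_left_of_integrable
    (μ := (volume : Measure (σ → ℝ))) (f := H) (f' := H') (g := ψ) (g' := dt i ψ) (v := bv i)
    (B := ContinuousLinearMap.mul ℝ ℝ) (hint _ hψ) (hint _ (hψ.dt i)) (hint _ hψ)
    (fun x _ => hder x) (fun x _ => hder2 x)
  simp only [ContinuousLinearMap.mul_apply'] at h1
  rw [h1, neg_neg]

/-- the formal adjoint -/
noncomputable def adj : List σ → ((σ → ℝ) → ℝ) → (σ → ℝ) → ℝ
  | [], ψ => ψ
  | i :: β, ψ => adj β (fun x => -dt i ψ x)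

theorem test_adj (β : List σ) {ψ : (σ → ℝ) → ℝ} (hψ : Test ψ) : Test (adj β ψ) := by
  induction β generalizing ψ with
  | nil => exact hψ
  | cons i β ih => exact ih (hψ.dt i).neg

omit [Fintype σ] in
theorem pow_dvd_dd {g h : MvPolynomial σ ℝ} {N : ℕ} (hgh : g ^ N ∣ h) (β : List σ) :
    g ^ (N - β.length) ∣ dd β h := by
  induction β with
  | nil => exact hgh
  | cons i β ih =>
    rw [dd_cons, List.length_cons]
    obtain ⟨q, hq⟩ := ih
    rw [hq, pderiv_mul]
    rcases Nat.eq_zero_or_pos (N - β.length) with h0 | h0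
    · have : N - (β.length + 1) = 0 := by omega
      rw [this, pow_zero]
      exact one_dvd _
    · obtain ⟨m, hm⟩ : ∃ m, N - β.length = m + 1 := ⟨N - β.length - 1, by omega⟩
      have h1 : N - (β.length + 1) = m := by omega
      rw [h1, hm, pderiv_pow, pow_succ]
      refine ⟨(((m + 1 : ℕ) : MvPolynomial σ ℝ) * pderiv i g) * q + g * pderiv i q, ?_⟩
      rw [Nat.add_sub_cancel]
      ring

theorem ibp_list {g h : MvPolynomial σ ℝ} {Δ : Set (σ → ℝ)} (hΔ : IsOpen Δ)
    (hfr : ∀ x ∈ frontier Δ, eval x g = 0) {N : ℕ} (hgh : g ^ N ∣ h) (β : List σ)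
    (hN : β.length + 1 ≤ N) {ψ : (σ → ℝ) → ℝ} (hψ : Test ψ) :
    ∫ x in Δ, ev (dd β h) x * ψ x = ∫ x in Δ, ev h x * adj β ψ x := by
  induction β generalizing ψ with
  | nil => rfl
  | cons i β ih =>
    rw [List.length_cons] at hN
    have h1 : g ^ 2 ∣ dd β h := (pow_dvd_pow g (by omega)).trans (pow_dvd_dd hgh β)
    rw [dd_cons, ibp hΔ hfr h1 hψ i, adj, ← ih (by omega) (hψ.dt i).neg, ← integral_neg]
    refine integral_congr_ae (Eventually.of_forall fun x => ?_)
    change -(ev (dd β h) x * dt i ψ x) = ev (dd β h) x * -dt i ψ x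
    ring

theorem integral_gen {g : MvPolynomial σ ℝ} {Δ : Set (σ → ℝ)} (hΔ : IsOpen Δ)
    (hfr : ∀ x ∈ frontier Δ, eval x g = 0) (m : ℕ) (p : MvPolynomial σ ℝ) (β : List σ) (s : ℕ)
    (hs : β.length ≤ s) {ψ : (σ → ℝ) → ℝ} (hψ : Test ψ) :
    ∫ x in Δ, ev (gen g m p β s) x * ψ x =
      (s : ℝ) ^ m * ∫ x in Δ, (ev g x) ^ (s + 1) * adj β (fun x => ev p x * ψ x) x := by
  have h1 := ibp_list hΔ hfr (h := g ^ (s + 1)) (dvd_refl _) β (by omega) (hψ.mul p)
  have h2 : ∀ x, ev (g ^ (s + 1)) x = (ev g x) ^ (s + 1) := fun x => by rw [ev, ev, map_pow]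
  simp only [h2] at h1
  rw [← h1, ← integral_const_mul]
  congr 1
  funext x
  rw [gen, ev, ev, ev, map_mul, map_mul, eval_C]
  ring

end Pool.Agent.Helper48.RC
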