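import Pool.Agent.Helper48.RC.Sublevel
import Pool.Agent.Helper48.RC.Ibp

set_option autoImplicit false

/-! # Local integrability of powers of a polynomial at a point of small multiplicity -/

namespace Pool.Agent.Helper48.RC

open MvPolynomial MeasureTheory Filter Topology Set

variable {σ : Type} [Fintype σ]

/-- the derivative in the direction `v` -/
noncomputable def dv (v : σ → ℝ) (h : MvPolynomial σ ℝ) : MvPolynomial σ ℝ :=
  ∑ i, MvPolynomial.C (v i) * pderiv i h

theorem hasDerivAt_line (h : MvPolynomial σ ℝ) (x v : σ → ℝ) (t : ℝ) :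
    HasDerivAt (fun t : ℝ => ev h (x + t • v)) (ev (dv v h) (x + t • v)) t := by
  classical
  induction h using MvPolynomial.induction_on with
  | C a =>
    have h1 : (fun t : ℝ => ev (MvPolynomial.C a : MvPolynomial σ ℝ) (x + t • v)) = fun _ => a := by
      funext y
      rw [ev, eval_C]
    have h2 : dv v (MvPolynomial.C a) = 0 := by
      rw [dv]
      exact Finset.sum_eq_zero fun i _ => by rw [pderiv_C, mul_zero]
    rw [h1, h2, ev, map_zero]
    exact hasDerivAt_const _ _
  | add p q hp hq =>
    have h1 : (fun t : ℝ => ev (p + q) (x + t • v)) =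
        fun t : ℝ => ev p (x + t • v) + ev q (x + t • v) := by
      funext y
      rw [ev, ev, ev, map_add]
    have h2 : dv v (p + q) = dv v p + dv v q := by
      rw [dv, dv, dv, ← Finset.sum_add_distrib]
      exact Finset.sum_congr rfl fun i _ => by rw [map_add, mul_add]
    rw [h1, h2, ev, map_add]
    exact HasDerivAt.add hp hq
  | mul_X p j hp =>
    have h1 : (fun t : ℝ => ev (p * X j) (x + t • v)) =
        fun t : ℝ => ev p (x + t • v) * (x j + t * v j) := by
      funext y
      rw [ev, ev, map_mul, eval_X, Pi.add_apply, Pi.smul_apply, smul_eq_mul]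
    have h2 : HasDerivAt (fun t : ℝ => x j + t * v j) (v j) t := by
      have h4 := ((hasDerivAt_id t).mul_const (v j)).const_add (x j)
      rwa [one_mul] at h4
    have h3 := HasDerivAt.mul hp h2
    have h4 : dv v (p * X j) = dv v p * X j + p * MvPolynomial.C (v j) := by
      rw [dv, dv, Finset.sum_mul]
      have h5 : ∀ i, MvPolynomial.C (v i) * pderiv i (p * X j) =
          MvPolynomial.C (v i) * pderiv i p * X j +
            (if i = j then p * MvPolynomial.C (v j) else 0) := by
        intro i
        rw [pderiv_mul]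
        split_ifs with hij
        · subst hij
          rw [pderiv_X_self]
          ring
        · rw [pderiv_X_of_ne (Ne.symm hij)]
          ring
      rw [Finset.sum_congr rfl fun i _ => h5 i, Finset.sum_add_distrib, Finset.sum_ite_eq' Finset.univ j]
      simp
    rw [h1, h4]
    have h5 : ev (dv v p * X j + p * MvPolynomial.C (v j)) (x + t • v) =
        ev (dv v p) (x + t • v) * (x j + t * v j) + ev p (x + t • v) * v j := by
      rw [ev, ev, ev, map_add, map_mul, map_mul, eval_X, eval_C, Pi.add_apply, Pi.smul_apply,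
        smul_eq_mul]
    rw [h5]
    exact h3

/-- iterated derivative in the direction `v` -/
noncomputable def dvi (v : σ → ℝ) (g : MvPolynomial σ ℝ) : ℕ → MvPolynomial σ ℝ
  | 0 => g
  | m + 1 => dv v (dvi v g m)

theorem iteratedDeriv_line (g : MvPolynomial σ ℝ) (x v : σ → ℝ) (m : ℕ) :
    iteratedDeriv m (fun t : ℝ => eval (x + t • v) g) = fun t => ev (dvi v g m) (x + t • v) := by
  induction m with
  | zero =>
    rw [iteratedDeriv_zero]
    rfl
  | succ m ih =>
    rw [iteratedDeriv_succ, ih]
    funext t
    exact (hasDerivAt_line (dvi v g m) x v t).deriv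

theorem dvi_neg (v : σ → ℝ) (g : MvPolynomial σ ℝ) (m : ℕ) : dvi v (-g) m = -dvi v g m := by
  induction m with
  | zero => rfl
  | succ m ih =>
    rw [dvi, dvi, ih, dv, dv, ← Finset.sum_neg_distrib]
    exact Finset.sum_congr rfl fun i _ => by rw [map_neg, mul_neg]

/-- the volume of a sublevel set near a point -/
theorem volume_sublevel_pos (g : MvPolynomial σ ℝ) (x₀ v : σ → ℝ) (m : ℕ)
    (h : 0 < ev (dvi v g (m + 1)) x₀) :
    ∃ r : ℝ, 0 < r ∧ ∃ A : ℝ, 0 ≤ A ∧ ∀ ε : ℝ, 0 < ε →
      volume (Metric.closedBall x₀ r ∩ {x | |ev g x| ≤ ε}) ≤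
        ENNReal.ofReal (A * ε ^ (1 / ((m : ℝ) + 1))) := by
  set c : ℝ := ev (dvi v g (m + 1)) x₀ / 2 with hc
  have hc0 : 0 < c := by positivity
  have h1 : ∀ᶠ x in 𝓝 x₀, c < ev (dvi v g (m + 1)) x := by
    refine (continuous_ev (dvi v g (m + 1))).continuousAt.eventually_const_lt ?_
    rw [hc]
    linarith
  obtain ⟨R, hR, hR'⟩ := Metric.eventually_nhds_iff.1 h1
  set r : ℝ := R / 4 with hr
  have hr0 : 0 < r := by positivity
  set δ : ℝ := r / (‖v‖ + 1) with hδ
  have hv1 : 0 < ‖v‖ + 1 := by positivity
  have hδ0 : 0 < δ := by positivity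
  have hδv : ∀ t ∈ Icc (0 : ℝ) δ, ‖t • v‖ ≤ r := by
    intro t ht
    rw [norm_smul, Real.norm_eq_abs, abs_of_nonneg ht.1]
    have h2 : δ * ‖v‖ ≤ r := by
      rw [hδ, div_mul_eq_mul_div, div_le_iff₀ hv1]
      nlinarith [norm_nonneg v]
    exact (mul_le_mul_of_nonneg_right ht.2 (norm_nonneg v)).trans h2
  set V : ℝ := (volume (Metric.closedBall x₀ (2 * r))).toReal with hV
  have hVfin : volume (Metric.closedBall x₀ (2 * r)) ≠ ⊤ :=
    (isCompact_closedBall x₀ (2 * r)).measure_lt_top.ne
  set e : ℝ := 1 / ((m : ℝ) + 1) with he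
  have hK := Ksub_pos m
  refine ⟨r, hr0, V * (Ksub m * (1 / c) ^ e) / δ, by positivity, fun ε hε => ?_⟩
  set S : Set (σ → ℝ) := Metric.closedBall x₀ r ∩ {x | |ev g x| ≤ ε} with hS
  have hSm : MeasurableSet S := Metric.isClosed_closedBall.measurableSet.inter
    (measurableSet_le (continuous_ev g).abs.measurable measurable_const)
  -- the double integral
  set Φ : ℝ → (σ → ℝ) → ENNReal := fun t x => S.indicator (fun _ => (1 : ENNReal)) (x + t • v) with hΦ
  have hΦm : Measurable (Function.uncurry Φ) := by
    have h2 : Measurable (fun y : ℝ × (σ → ℝ) => y.2 + y.1 • v) := by fun_prop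
    exact (measurable_const.indicator hSm).comp h2
  have hleft : ∫⁻ t in Icc (0 : ℝ) δ, ∫⁻ x, Φ t x = ENNReal.ofReal δ * volume S := by
    have h2 : ∀ t : ℝ, ∫⁻ x, Φ t x = volume S := by
      intro t
      rw [hΦ]
      have h3 := lintegral_add_right_eq_self (μ := (volume : Measure (σ → ℝ)))
        (fun x => S.indicator (fun _ => (1 : ENNReal)) x) (t • v)
      rw [h3, lintegral_indicator hSm]
      simp
    simp only [h2]
    rw [lintegral_const, Measure.restrict_apply_univ, Real.volume_Icc, sub_zero, mul_comm]
  have hright : ∫⁻ x, ∫⁻ t in Icc (0 : ℝ) δ, Φ t x ≤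
      ENNReal.ofReal (Ksub m * (ε / c) ^ e) * volume (Metric.closedBall x₀ (2 * r)) := by
    have h2 : ∀ x, ∫⁻ t in Icc (0 : ℝ) δ, Φ t x ≤
        (Metric.closedBall x₀ (2 * r)).indicator
          (fun _ => ENNReal.ofReal (Ksub m * (ε / c) ^ e)) x := by
      intro x
      by_cases hx : x ∈ Metric.closedBall x₀ (2 * r)
      · rw [indicator_of_mem hx]
        have h3 := sublevel m (fun j t => ev (dvi v g j) (x + t • v))
          (fun j t => hasDerivAt_line (dvi v g j) x v t) (I := Icc 0 δ) ordConnected_Icc hc0
          (fun t ht => ?_) hε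
        · refine le_trans ?_ h3
          have h4 : ∫⁻ t in Icc (0 : ℝ) δ, Φ t x ≤
              ∫⁻ t in Icc (0 : ℝ) δ, {t | |ev g (x + t • v)| ≤ ε}.indicator (fun _ => 1) t := by
            refine lintegral_mono fun t => ?_
            rw [hΦ]
            by_cases h5 : x + t • v ∈ S
            · have h6 : t ∈ {t : ℝ | |ev g (x + t • v)| ≤ ε} := h5.2
              change S.indicator _ (x + t • v) ≤ _
              rw [indicator_of_mem h5, indicator_of_mem h6]
            · change S.indicator _ (x + t • v) ≤ _
              rw [indicator_of_notMem h5]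
              exact zero_le
          refine h4.trans ?_
          have h5 : MeasurableSet {t : ℝ | |ev g (x + t • v)| ≤ ε} := by
            refine measurableSet_le ?_ measurable_const
            have h6 : Continuous fun t : ℝ => ev g (x + t • v) :=
              (continuous_ev g).comp (by fun_prop)
            exact h6.abs.measurable
          rw [lintegral_indicator h5, lintegral_one, Measure.restrict_restrict h5,
            Measure.restrict_apply_univ, inter_comm]
          rfl
        · have h4 : dist (x + t • v) x₀ < R := by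
            have h5 : dist (x + t • v) x₀ ≤ ‖t • v‖ + dist x x₀ := by
              rw [dist_eq_norm, dist_eq_norm]
              have h6 : x + t • v - x₀ = t • v + (x - x₀) := by abel
              rw [h6]
              exact norm_add_le _ _
            have h6 := hδv t ht
            have h7 : dist x x₀ ≤ 2 * r := hx
            rw [hr] at h6 h7
            linarith
          exact (hR' h4).le
      · rw [indicator_of_notMem hx]
        refine le_of_eq ?_
        have h3 : ∀ t ∈ Icc (0 : ℝ) δ, Φ t x = 0 := by
          intro t ht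
          have h4 : x + t • v ∉ S := by
            intro h5
            apply hx
            have h6 : dist (x + t • v) x₀ ≤ r := h5.1
            have h7 := hδv t ht
            rw [Metric.mem_closedBall]
            have h8 : dist x x₀ ≤ dist (x + t • v) x₀ + ‖t • v‖ := by
              rw [dist_eq_norm, dist_eq_norm]
              have h9 : x - x₀ = (x + t • v - x₀) - t • v := by abel
              rw [h9]
              exact norm_sub_le _ _
            linarith
          change S.indicator _ (x + t • v) = 0
          rw [indicator_of_notMem h4]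
        rw [setLIntegral_congr_fun measurableSet_Icc h3]
        simp
    refine (lintegral_mono h2).trans ?_
    rw [lintegral_indicator Metric.isClosed_closedBall.measurableSet, lintegral_const,
      Measure.restrict_apply_univ]
  have hswap : ∫⁻ t in Icc (0 : ℝ) δ, ∫⁻ x, Φ t x = ∫⁻ x, ∫⁻ t in Icc (0 : ℝ) δ, Φ t x :=
    lintegral_lintegral_swap hΦm.aemeasurable
  rw [hleft] at hswap
  rw [← hswap] at hright
  -- divide by δ
  have h3 : volume (Metric.closedBall x₀ (2 * r)) = ENNReal.ofReal V :=
    (ENNReal.ofReal_toReal hVfin).symm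
  rw [h3, ← ENNReal.ofReal_mul (by positivity)] at hright
  have h4 : volume S = ENNReal.ofReal (1 / δ) * (ENNReal.ofReal δ * volume S) := by
    rw [← mul_assoc, ← ENNReal.ofReal_mul (by positivity), one_div, inv_mul_cancel₀ hδ0.ne',
      ENNReal.ofReal_one, one_mul]
  rw [h4]
  refine (mul_le_mul_right hright _).trans ?_
  rw [← ENNReal.ofReal_mul (by positivity)]
  apply ENNReal.ofReal_le_ofReal
  have h5 : (ε / c) ^ e = (1 / c) ^ e * ε ^ e := by
    rw [← Real.mul_rpow (by positivity) hε.le]
    congr 1
    ring
  rw [h5]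
  apply le_of_eq
  ring

end Pool.Agent.Helper48.RC
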