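import Pool.Agent.Helper48.RC.Zeta

set_option autoImplicit false

/-! # The root of a functional equation over a chamber -/

namespace Pool.Agent.Helper48.RC

open MvPolynomial MeasureTheory Filter Topology ProbabilityTheory

variable {σ : Type} [Fintype σ] {g : MvPolynomial σ ℝ} {d : ℕ} {Δ : Set (σ → ℝ)}

namespace Wedge

variable (W : Wedge (ev g) d Δ)

include W

theorem kappa_pos : 0 < (Fintype.card σ : ℝ) / d :=
  div_pos (by exact_mod_cast W.card_pos) (by exact_mod_cast W.dpos)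

theorem good_gen {M : ℝ} (hM1 : 1 ≤ M) (hM : ∀ x : σ → ℝ, ‖x‖ ≤ 2 → |ev g x| ≤ M)
    (hfr : ∀ x ∈ frontier Δ, eval x g = 0) (m : ℕ) (p : MvPolynomial σ ℝ) (β : List σ)
    {ψ : (σ → ℝ) → ℝ} (hψ : Test ψ) :
    Good ((Fintype.card σ : ℝ) / d) M (fun s => ∫ x in Δ, ev (gen g m p β s) x * ψ x) := by
  set κ : ℝ := (Fintype.card σ : ℝ) / d with hκ
  have hκ0 : 0 < κ := W.kappa_pos
  have hM0 : 0 < M := by linarith
  have hχ : Test (adj β (fun x => ev p x * ψ x)) := test_adj β (hψ.mul p)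
  set χ := adj β (fun x => ev p x * ψ x) with hχdef
  obtain ⟨A, hA, hA'⟩ := W.J_bound hM1 hM hχ
  have hPB : PB κ M (fun z => J (ev g) Δ χ (z + 1)) := by
    refine ⟨?_, A * M, mul_nonneg hA hM0.le, 0, fun z hz => ?_⟩
    · refine (W.J_diff hχ).comp (differentiableOn_id.add_const _) fun w hw => ?_
      simp only [Set.mem_ofPred_eq, Complex.add_re, Complex.one_re] at hw ⊢
      linarith
    · have h1 := hA' (z + 1) (by rw [Complex.add_re, Complex.one_re]; linarith)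
      refine h1.trans (le_of_eq ?_)
      rw [Complex.add_re, Complex.one_re, Real.rpow_add hM0, Real.rpow_one, pow_zero]
      ring
  refine ⟨fun z => z ^ m * J (ev g) Δ χ (z + 1), hPB.pow_mul hM0 m,
    ⟨(κ + 1) ^ m * (A * M ^ (-κ + 2)), fun t h1 h2 => ?_⟩, ?_⟩
  · rw [norm_mul, norm_pow]
    have h3 : ‖(t : ℂ)‖ ≤ κ + 1 := by
      rw [Complex.norm_real, Real.norm_eq_abs, abs_le]
      constructor <;> linarith
    have h4 := hA' ((t : ℂ) + 1) (by
      rw [Complex.add_re, Complex.one_re, Complex.ofReal_re]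
      linarith)
    have h5 : M ^ ((t : ℂ) + 1).re ≤ M ^ (-κ + 2) := by
      refine Real.rpow_le_rpow_of_exponent_le hM1 ?_
      rw [Complex.add_re, Complex.one_re, Complex.ofReal_re]
      linarith
    exact mul_le_mul (pow_le_pow_left₀ (norm_nonneg _) h3 m)
      (h4.trans (mul_le_mul_of_nonneg_left h5 hA)) (norm_nonneg _) (by positivity)
  · filter_upwards [eventually_ge_atTop β.length] with s hs
    have h1 : ((s : ℂ) + 1) = ((s + 1 : ℕ) : ℂ) := by push_cast; ring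
    change (s : ℂ) ^ m * J (ev g) Δ χ ((s : ℂ) + 1) = _
    rw [integral_gen W.isOpen hfr m p β s hs hψ, h1, W.J_nat hχ, Complex.ofReal_mul,
      Complex.ofReal_pow, Complex.ofReal_natCast]

theorem good_fam {M : ℝ} (hM1 : 1 ≤ M) (hM : ∀ x : σ → ℝ, ‖x‖ ≤ 2 → |ev g x| ≤ M)
    (hfr : ∀ x ∈ frontier Δ, eval x g = 0) {ψ : (σ → ℝ) → ℝ} (hψ : Test ψ)
    (E : ℕ → MvPolynomial σ ℝ) (hE : E ∈ Fam g) :
    Good ((Fintype.card σ : ℝ) / d) M (fun s => ∫ x in Δ, ev (E s) x * ψ x) := by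
  have hM0 : 0 < M := by linarith
  refine AddSubmonoid.closure_induction (motive := fun E _ =>
    Good ((Fintype.card σ : ℝ) / d) M (fun s => ∫ x in Δ, ev (E s) x * ψ x)) ?_ ?_ ?_ hE
  · rintro E ⟨m, p, β, rfl⟩
    exact W.good_gen hM1 hM hfr m p β hψ
  · have h1 : (fun s : ℕ => ∫ x in Δ, ev ((0 : ℕ → MvPolynomial σ ℝ) s) x * ψ x) = fun _ => 0 := by
      funext s
      simp [ev]
    rw [h1]
    exact good_zero
  · intro E₁ E₂ _ _ h1 h2
    have h3 : (fun s : ℕ => ∫ x in Δ, ev ((E₁ + E₂) s) x * ψ x) =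
        fun s => (∫ x in Δ, ev (E₁ s) x * ψ x) + ∫ x in Δ, ev (E₂ s) x * ψ x := by
      funext s
      rw [← integral_add (hψ.mul _).integrable.integrableOn (hψ.mul _).integrable.integrableOn]
      refine integral_congr_ae (Eventually.of_forall fun x => ?_)
      change eval x (E₁ s + E₂ s) * ψ x = eval x (E₁ s) * ψ x + eval x (E₂ s) * ψ x
      rw [map_add, add_mul]
    rw [h3]
    exact h1.add hM0 h2

omit W in
theorem exists_test : ∃ φ : (σ → ℝ) → ℝ, Test φ ∧ (∀ x, 0 ≤ φ x) ∧ ∀ x, ‖x‖ ≤ 1 → φ x = 1 := by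
  set B : ContDiffBump (0 : σ → ℝ) := ⟨1, 2, one_pos, one_lt_two⟩ with hB
  refine ⟨B, ⟨B.contDiff, fun x hx => ?_⟩, fun x => B.nonneg, fun x hx => ?_⟩
  · refine B.zero_of_le_dist ?_
    rw [dist_zero_right]
    exact hx.le
  · refine B.one_of_mem_closedBall ?_
    rw [mem_closedBall_zero_iff]
    exact hx

theorem lint_le {φ : (σ → ℝ) → ℝ} (hφ : Test φ) (hφ0 : ∀ x, 0 ≤ φ x)
    (hφ1 : ∀ x, ‖x‖ ≤ 1 → φ x = 1) (t : ℝ) (ht : -((Fintype.card σ : ℝ) / d) < t) :
    ∫⁻ x in Δ ∩ {x | ‖x‖ ≤ 1}, ENNReal.ofReal (ev g x ^ t) ≤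
      ENNReal.ofReal ‖J (ev g) Δ φ (t : ℂ)‖ := by
  have h0 : nu Δ (fun x => -φ x) = 0 := by
    have h1 : (fun x => ENNReal.ofReal (-φ x)) = 0 := by
      funext x
      exact ENNReal.ofReal_of_nonpos (by linarith [hφ0 x])
    rw [nu, h1, withDensity_zero]
  have h1 : J (ev g) Δ φ (t : ℂ) =
      ((∫ x, ev g x ^ t * max (φ x) 0 ∂(base Δ) : ℝ) : ℂ) := by
    rw [J, h0, complexMGF_ofReal, W.mgf_nu hφ]
    simp [complexMGF]
  have h2 : 0 ≤ᵐ[base Δ] fun x => ev g x ^ t * max (φ x) 0 := by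
    filter_upwards [W.ae_base] with x hx
    exact mul_nonneg (Real.rpow_nonneg (W.pos x hx.1).le _) (le_max_right _ _)
  rw [h1, Complex.norm_real, Real.norm_of_nonneg (integral_nonneg_of_ae h2),
    ofReal_integral_eq_lintegral_ofReal (W.integrable_density hφ t ht) h2]
  have h3 : ∫⁻ x in Δ ∩ {x | ‖x‖ ≤ 1}, ENNReal.ofReal (ev g x ^ t) =
      ∫⁻ x in Δ ∩ {x | ‖x‖ ≤ 1}, ENNReal.ofReal (ev g x ^ t * max (φ x) 0) := by
    refine setLIntegral_congr_fun (W.isOpen.measurableSet.inter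
      (measurableSet_le measurable_norm measurable_const)) fun x hx => ?_
    have h4 : φ x = 1 := hφ1 x hx.2
    simp only [h4]
    rw [max_eq_left zero_le_one, mul_one]
  rw [h3]
  refine lintegral_mono_set fun x hx => ⟨hx.1, ?_⟩
  have h4 : ‖x‖ ≤ 1 := hx.2
  exact h4.trans one_le_two

theorem root (hfr : ∀ x ∈ frontier Δ, eval x g = 0) (b : Polynomial ℝ) (hb : NF g b) :
    b.eval (-((Fintype.card σ : ℝ) / d)) = 0 := by
  set κ : ℝ := (Fintype.card σ : ℝ) / d with hκ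
  have hκ0 : 0 < κ := W.kappa_pos
  obtain ⟨M, hM1, hM⟩ := W.exists_bound 2
  have hM0 : 0 < M := by linarith
  obtain ⟨φ, hφ, hφ0, hφ1⟩ := exists_test (σ := σ)
  obtain ⟨G, hG, ⟨C, hC⟩, hGe⟩ := W.good_fam hM1 hM hfr hφ _ hb
  set bC : Polynomial ℂ := b.map (algebraMap ℝ ℂ) with hbC
  have hbC' : ∀ t : ℝ, bC.eval (t : ℂ) = ((b.eval t : ℝ) : ℂ) := by
    intro t
    have h1 : (t : ℂ) = algebraMap ℝ ℂ t := rfl
    rw [hbC, h1, Polynomial.eval_map_apply]
    rfl
  have hH : PB κ M (fun z => bC.eval z * J (ev g) Δ φ z - G z) :=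
    ((W.J_PB hM1 hM hφ).poly_mul hM0 bC).sub hM0 hG
  have hH0 : ∀ᶠ s : ℕ in atTop, bC.eval (s : ℂ) * J (ev g) Δ φ (s : ℂ) - G s = 0 := by
    filter_upwards [hGe] with s hs
    have h1 : bC.eval (s : ℂ) = ((b.eval (s : ℝ) : ℝ) : ℂ) := by
      have := hbC' (s : ℝ)
      rwa [Complex.ofReal_natCast] at this
    rw [hs, W.J_nat hφ, h1, ← Complex.ofReal_mul, ← Complex.ofReal_sub, ← integral_const_mul]
    rw [Complex.ofReal_eq_zero, sub_eq_zero]
    refine integral_congr_ae (Eventually.of_forall fun x => ?_)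
    change b.eval (s : ℝ) * (eval x g ^ s * φ x) =
      eval x (MvPolynomial.C (b.eval (s : ℝ)) * g ^ s) * φ x
    rw [map_mul, eval_C, map_pow, mul_assoc]
  have hvan : ∀ t : ℝ, -κ < t → bC.eval (t : ℂ) * J (ev g) Δ φ (t : ℂ) = G t := by
    intro t ht
    have h1 := hH.vanish hM0 hκ0.le hH0 (t : ℂ) (by rwa [Complex.ofReal_re])
    exact sub_eq_zero.1 h1
  by_contra hne
  -- a lower bound of `|b|` near `-κ`
  set c : ℝ := |b.eval (-κ)| / 2 with hc
  have hc0 : 0 < c := by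
    have := abs_pos.2 hne
    positivity
  have hcont : ∀ᶠ t in 𝓝 (-κ), c < |b.eval t| := by
    have h1 : ContinuousAt (fun t => |b.eval t|) (-κ) := b.continuous.continuousAt.abs
    refine h1.eventually_const_lt ?_
    have := abs_pos.2 hne
    change |b.eval (-κ)| / 2 < |b.eval (-κ)|
    linarith
  obtain ⟨δ, hδ, hδ'⟩ := Metric.eventually_nhds_iff.1 hcont
  have hC0 : 0 ≤ C := (norm_nonneg _).trans (hC (-κ + 1 / 2) (by linarith) (by linarith))
  have hbd : ∀ t : ℝ, -κ < t → t < -κ + min δ 1 →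
      ∫⁻ x in Δ ∩ {x | ‖x‖ ≤ 1}, ENNReal.ofReal (ev g x ^ t) ≤ ENNReal.ofReal (C / c) := by
    intro t h1 h2
    have h3 : t < -κ + δ := h2.trans_le (by linarith [min_le_left δ 1])
    have h4 : t < -κ + 1 := h2.trans_le (by linarith [min_le_right δ 1])
    refine (W.lint_le hφ hφ0 hφ1 t h1).trans (ENNReal.ofReal_le_ofReal ?_)
    have h5 : c < |b.eval t| := hδ' (by
      rw [Real.dist_eq, abs_lt]
      constructor <;> linarith)
    have h6 := hC t h1 h4
    rw [← hvan t h1, norm_mul, hbC', Complex.norm_real, Real.norm_eq_abs] at h6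
    rw [le_div_iff₀ hc0]
    nlinarith [norm_nonneg (J (ev g) Δ φ (t : ℂ))]
  -- Fatou
  set tt : ℕ → ℝ := fun j => -κ + min δ 1 / (j + 2) with htt
  have hδ1 : 0 < min δ 1 := lt_min hδ one_pos
  have htlim : Tendsto tt atTop (𝓝 (-κ)) := by
    have h1 : Tendsto (fun j : ℕ => min δ 1 / ((j : ℝ) + 2)) atTop (𝓝 0) :=
      tendsto_const_nhds.div_atTop
        (tendsto_atTop_add_const_right _ _ tendsto_natCast_atTop_atTop)
    have h2 := h1.const_add (-κ)
    rwa [add_zero] at h2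
  have hmeas : MeasurableSet (Δ ∩ {x : σ → ℝ | ‖x‖ ≤ 1}) :=
    W.isOpen.measurableSet.inter (measurableSet_le measurable_norm measurable_const)
  have h1 : ∫⁻ x in Δ ∩ {x | ‖x‖ ≤ 1}, ENNReal.ofReal (ev g x ^ (-κ)) ≤
      ENNReal.ofReal (C / c) := by
    calc ∫⁻ x in Δ ∩ {x | ‖x‖ ≤ 1}, ENNReal.ofReal (ev g x ^ (-κ)) =
        ∫⁻ x in Δ ∩ {x | ‖x‖ ≤ 1}, liminf (fun j => ENNReal.ofReal (ev g x ^ (tt j))) atTop := by
          refine setLIntegral_congr_fun hmeas fun x hx => ?_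
          have h2 : Tendsto (fun j => ENNReal.ofReal (ev g x ^ (tt j))) atTop
              (𝓝 (ENNReal.ofReal (ev g x ^ (-κ)))) :=
            ENNReal.tendsto_ofReal
              ((Real.continuousAt_const_rpow (W.pos x hx.1).ne').tendsto.comp htlim)
          exact h2.liminf_eq.symm
      _ ≤ liminf (fun j => ∫⁻ x in Δ ∩ {x | ‖x‖ ≤ 1}, ENNReal.ofReal (ev g x ^ (tt j))) atTop :=
          lintegral_liminf_le fun j => W.measurable_pow _
      _ ≤ ENNReal.ofReal (C / c) := by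
          refine liminf_le_of_frequently_le' (Frequently.of_forall fun j => ?_)
          refine hbd _ ?_ ?_
          · have : 0 < min δ 1 / ((j : ℝ) + 2) := by positivity
            change -κ < -κ + min δ 1 / ((j : ℝ) + 2)
            linarith
          · have : min δ 1 / ((j : ℝ) + 2) < min δ 1 := by
              rw [div_lt_iff₀ (by positivity)]
              nlinarith [Nat.cast_nonneg (α := ℝ) j]
            change -κ + min δ 1 / ((j : ℝ) + 2) < -κ + min δ 1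
            linarith
  have h2 := W.lint_crit
  rw [neg_div, ← hκ] at h2
  rw [h2] at h1
  exact absurd h1 (not_le.2 ENNReal.ofReal_lt_top)

end Wedge

end Pool.Agent.Helper48.RC
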