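import Mathlib

set_option autoImplicit false

/-! # Integrals of powers of a homogeneous function over a cone -/

namespace Pool.Agent.Helper48.RC

open MeasureTheory Set

variable {σ : Type} [Fintype σ]

/-- a homogeneous positive function on an open cone, with the critical power integrable away from
the origin -/
structure Wedge (u : (σ → ℝ) → ℝ) (d : ℕ) (Δ : Set (σ → ℝ)) : Prop where
  dpos : 0 < d
  cont : Continuous u
  hom : ∀ t : ℝ, 0 < t → ∀ x, u (t • x) = t ^ d * u x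
  isOpen : IsOpen Δ
  nonempty : Δ.Nonempty
  cone : ∀ x ∈ Δ, ∀ t : ℝ, 0 < t → t • x ∈ Δ
  pos : ∀ x ∈ Δ, 0 < u x
  int : IntegrableOn (fun x => u x ^ (-(Fintype.card σ : ℝ) / d))
    (Δ ∩ {x | 1 ≤ ‖x‖ ∧ ‖x‖ ≤ 2})

/-- the annulus `t < |x| ≤ 2 t` -/
def ann (t : ℝ) : Set (σ → ℝ) := {x | t < ‖x‖ ∧ ‖x‖ ≤ 2 * t}

theorem measurableSet_ann (t : ℝ) : MeasurableSet (ann (σ := σ) t) :=
  (measurableSet_lt measurable_const measurable_norm).inter
    (measurableSet_le measurable_norm measurable_const)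

variable {u : (σ → ℝ) → ℝ} {d : ℕ} {Δ : Set (σ → ℝ)}

namespace Wedge

variable (W : Wedge u d Δ)

include W

theorem zero_notMem : (0 : σ → ℝ) ∉ Δ := by
  intro h
  have h1 := W.hom 2 two_pos 0
  rw [smul_zero] at h1
  have h2 := W.pos 0 h
  have h3 : (2 : ℝ) ^ d ≠ 1 := by
    have := one_lt_pow₀ (one_lt_two (α := ℝ)) W.dpos.ne'
    exact this.ne'
  apply h3
  have h4 : ((2 : ℝ) ^ d - 1) * u 0 = 0 := by linarith
  rcases mul_eq_zero.1 h4 with h5 | h5
  · linarith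
  · exact absurd h5 h2.ne'

theorem measurable_pow (r : ℝ) : Measurable fun x => ENNReal.ofReal (u x ^ r) :=
  (W.cont.measurable.pow_const r).ennreal_ofReal

theorem scale (r : ℝ) (t : ℝ) (ht : 0 < t) :
    ∫⁻ x in Δ ∩ ann t, ENNReal.ofReal (u x ^ r) =
      ENNReal.ofReal (t ^ ((Fintype.card σ : ℝ) + d * r)) *
        ∫⁻ x in Δ ∩ ann 1, ENNReal.ofReal (u x ^ r) := by
  have hm : ∀ t : ℝ, MeasurableSet (Δ ∩ ann t) := fun t =>
    W.isOpen.measurableSet.inter (measurableSet_ann t)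
  set F : (σ → ℝ) → ENNReal := (Δ ∩ ann t).indicator fun x => ENNReal.ofReal (u x ^ r) with hF
  have hFm : Measurable F := (W.measurable_pow r).indicator (hm t)
  have h1 : ∫⁻ x, F x ∂(Measure.map (t • ·) (volume : Measure (σ → ℝ))) =
      ENNReal.ofReal |(t ^ Fintype.card σ)⁻¹| * ∫⁻ x in Δ ∩ ann t, ENNReal.ofReal (u x ^ r) := by
    rw [Measure.map_addHaar_smul _ ht.ne', lintegral_smul_measure, Module.finrank_fintype_fun_eq_card,
      hF, lintegral_indicator (hm t), smul_eq_mul]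
  rw [lintegral_map hFm (measurable_const_smul t)] at h1
  have h2 : ∀ x, F (t • x) = ENNReal.ofReal (t ^ (d * r)) *
      (Δ ∩ ann 1).indicator (fun x => ENNReal.ofReal (u x ^ r)) x := by
    intro x
    have h3 : t • x ∈ Δ ∩ ann t ↔ x ∈ Δ ∩ ann 1 := by
      have h4 : t • x ∈ Δ ↔ x ∈ Δ := by
        refine ⟨fun h => ?_, fun h => W.cone x h t ht⟩
        have := W.cone _ h t⁻¹ (inv_pos.2 ht)
        rwa [smul_smul, inv_mul_cancel₀ ht.ne', one_smul] at this
      have h5 : t • x ∈ ann t ↔ x ∈ ann 1 := by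
        simp only [ann, mem_ofPred_eq, norm_smul, Real.norm_eq_abs, abs_of_pos ht]
        constructor
        · rintro ⟨h6, h7⟩
          exact ⟨by nlinarith, by nlinarith⟩
        · rintro ⟨h6, h7⟩
          exact ⟨by nlinarith, by nlinarith⟩
      rw [mem_inter_iff, mem_inter_iff, h4, h5]
    by_cases hx : x ∈ Δ ∩ ann 1
    · rw [hF, indicator_of_mem (h3.2 hx), indicator_of_mem hx, W.hom t ht,
        Real.mul_rpow (pow_nonneg ht.le _) (W.pos x hx.1).le,
        ENNReal.ofReal_mul (Real.rpow_nonneg (pow_nonneg ht.le _) _), ← Real.rpow_natCast,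
        ← Real.rpow_mul ht.le]
    · rw [hF, indicator_of_notMem (fun h => hx (h3.1 h)), indicator_of_notMem hx, mul_zero]
  simp only [h2] at h1
  rw [lintegral_const_mul _ ((W.measurable_pow r).indicator (hm 1)), lintegral_indicator (hm 1)] at h1
  have h6 : ENNReal.ofReal (t ^ Fintype.card σ) * ENNReal.ofReal |(t ^ Fintype.card σ)⁻¹| = 1 := by
    rw [abs_of_pos (inv_pos.2 (pow_pos ht _)), ← ENNReal.ofReal_mul (pow_nonneg ht.le _),
      mul_inv_cancel₀ (pow_pos ht _).ne', ENNReal.ofReal_one]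
  have h7 := congrArg (fun y => ENNReal.ofReal (t ^ Fintype.card σ) * y) h1
  simp only [← mul_assoc] at h7
  rw [h6, one_mul] at h7
  rw [← h7, ← ENNReal.ofReal_mul (pow_nonneg ht.le _)]
  congr 2
  rw [Real.rpow_add ht, Real.rpow_natCast]

/-- an upper bound of `u` on a ball -/
theorem exists_bound (R : ℝ) : ∃ M : ℝ, 1 ≤ M ∧ ∀ x : σ → ℝ, ‖x‖ ≤ R → |u x| ≤ M := by
  obtain ⟨M, hM⟩ := (isCompact_closedBall (0 : σ → ℝ) R).exists_bound_of_continuousOn
    W.cont.continuousOn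
  refine ⟨max M 1, le_max_right _ _, fun x hx => ?_⟩
  refine le_trans ?_ (le_max_left _ _)
  exact hM x (by rwa [mem_closedBall_zero_iff])

theorem lint_ann_one (r : ℝ) (hr : -(Fintype.card σ : ℝ) / d ≤ r) :
    ∫⁻ x in Δ ∩ ann 1, ENNReal.ofReal (u x ^ r) < ⊤ := by
  obtain ⟨M, hM1, hM⟩ := W.exists_bound 2
  set κ : ℝ := -(Fintype.card σ : ℝ) / d with hκ
  have h0 : ∫⁻ x in Δ ∩ {x | 1 ≤ ‖x‖ ∧ ‖x‖ ≤ 2}, ENNReal.ofReal (u x ^ κ) < ⊤ :=
    W.int.lintegral_lt_top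
  have h1 : ∫⁻ x in Δ ∩ ann 1, ENNReal.ofReal (u x ^ κ) < ⊤ := by
    refine lt_of_le_of_lt (lintegral_mono_set ?_) h0
    rintro x ⟨h1, h2, h3⟩
    exact ⟨h1, h2.le, by linarith⟩
  have h2 : ∫⁻ x in Δ ∩ ann 1, ENNReal.ofReal (u x ^ r) ≤
      ∫⁻ x in Δ ∩ ann 1, ENNReal.ofReal (M ^ (r - κ)) * ENNReal.ofReal (u x ^ κ) := by
    refine setLIntegral_mono' (W.isOpen.measurableSet.inter (measurableSet_ann 1)) ?_
    rintro x ⟨hx, hx1, hx2⟩
    have hpos := W.pos x hx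
    have hle : u x ≤ M := le_trans (le_abs_self _) (hM x (by linarith))
    rw [← ENNReal.ofReal_mul (Real.rpow_nonneg (by linarith) _)]
    apply ENNReal.ofReal_le_ofReal
    have h3 : u x ^ r = u x ^ (r - κ) * u x ^ κ := by
      rw [← Real.rpow_add hpos]
      congr 1
      ring
    rw [h3]
    exact mul_le_mul_of_nonneg_right (Real.rpow_le_rpow hpos.le hle (by linarith))
      (Real.rpow_nonneg hpos.le _)
  refine lt_of_le_of_lt h2 ?_
  rw [lintegral_const_mul _ (W.measurable_pow κ)]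
  exact ENNReal.mul_lt_top ENNReal.ofReal_lt_top h1

theorem card_pos : 0 < Fintype.card σ := by
  rw [Fintype.card_pos_iff]
  by_contra h
  rw [not_nonempty_iff] at h
  obtain ⟨x, hx⟩ := W.nonempty
  have h1 : x = 0 := Subsingleton.elim _ _
  rw [h1] at hx
  exact W.zero_notMem hx

/-- supercritical powers are locally integrable -/
theorem lint_ball (r : ℝ) (hr : -(Fintype.card σ : ℝ) / d < r) :
    ∫⁻ x in Δ ∩ {x | ‖x‖ ≤ 2}, ENNReal.ofReal (u x ^ r) < ⊤ := by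
  have hd : (0 : ℝ) < d := by exact_mod_cast W.dpos
  have hc : 0 < (Fintype.card σ : ℝ) + d * r := by
    rw [div_lt_iff₀ hd] at hr
    linarith
  set c : ℝ := (Fintype.card σ : ℝ) + d * r with hcdef
  have h1 : Δ ∩ {x | ‖x‖ ≤ 2} ⊆ ⋃ j : ℕ, Δ ∩ ann ((1 / 2 : ℝ) ^ j) := by
    rintro x ⟨hx, hx2⟩
    have hx0 : 0 < ‖x‖ := norm_pos_iff.2 fun h => W.zero_notMem (h ▸ hx)
    rw [mem_ofPred_eq] at hx2
    rw [mem_iUnion]
    obtain ⟨j, hj, hj'⟩ := exists_nat_pow_near_of_lt_one (y := (1 / 2 : ℝ)) (x := ‖x‖ / 2)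
      (by positivity) (by linarith) (by norm_num) (by norm_num)
    refine ⟨j, hx, ?_, ?_⟩
    · rw [pow_succ] at hj
      linarith
    · linarith
  refine lt_of_le_of_lt (lintegral_mono_set h1) (lt_of_le_of_lt (lintegral_iUnion_le _ _) ?_)
  have h2 : ∀ j : ℕ, ∫⁻ x in Δ ∩ ann ((1 / 2 : ℝ) ^ j), ENNReal.ofReal (u x ^ r) =
      (ENNReal.ofReal ((1 / 2 : ℝ) ^ c)) ^ j * ∫⁻ x in Δ ∩ ann 1, ENNReal.ofReal (u x ^ r) := by
    intro j
    rw [W.scale r _ (by positivity), ← ENNReal.ofReal_pow (by positivity)]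
    congr 2
    rw [← Real.rpow_natCast, ← Real.rpow_natCast, ← Real.rpow_mul (by norm_num),
      ← Real.rpow_mul (by norm_num), mul_comm (j : ℝ)]
  simp only [h2]
  rw [ENNReal.tsum_mul_right, ENNReal.tsum_geometric]
  refine ENNReal.mul_lt_top ?_ (W.lint_ann_one r hr.le)
  rw [ENNReal.inv_lt_top, tsub_pos_iff_lt, ENNReal.ofReal_lt_one]
  exact Real.rpow_lt_one (by norm_num) (by norm_num) hc

/-- the critical power is not integrable at the origin -/
theorem lint_crit : ∫⁻ x in Δ ∩ {x | ‖x‖ ≤ 1},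
    ENNReal.ofReal (u x ^ (-(Fintype.card σ : ℝ) / d)) = ⊤ := by
  have hd : (0 : ℝ) < d := by exact_mod_cast W.dpos
  set κ : ℝ := -(Fintype.card σ : ℝ) / d with hκ
  have hc : (Fintype.card σ : ℝ) + d * κ = 0 := by
    rw [hκ]
    field_simp
    ring
  set A : ℕ → Set (σ → ℝ) := fun j => Δ ∩ ann ((1 / 2 : ℝ) ^ (j + 1)) with hA
  have h1 : (⋃ j : ℕ, A j) ⊆ Δ ∩ {x | ‖x‖ ≤ 1} := by
    intro x hx
    obtain ⟨j, hj, hj1, hj2⟩ := mem_iUnion.1 hx
    refine ⟨hj, ?_⟩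
    rw [mem_ofPred_eq]
    rw [pow_succ] at hj2
    have : (1 / 2 : ℝ) ^ j ≤ 1 := pow_le_one₀ (by norm_num) (by norm_num)
    linarith
  have hdisj : Pairwise (Function.onFun Disjoint A) := by
    have h3 : ∀ i j : ℕ, i < j → Disjoint (A i) (A j) := by
      intro i j hij
      rw [Set.disjoint_left]
      rintro x ⟨_, h4, _⟩ ⟨_, _, h5⟩
      have h6 : (1 / 2 : ℝ) ^ (j + 1) ≤ (1 / 2 : ℝ) ^ (i + 2) :=
        pow_le_pow_of_le_one (by norm_num) (by norm_num) (by omega)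
      rw [pow_succ] at h6
      have h7 : (1 / 2 : ℝ) ^ (i + 2) = (1 / 2) ^ (i + 1) * (1 / 2) := pow_succ _ _
      rw [pow_succ] at h5
      linarith
    intro i j hij
    rcases lt_or_gt_of_ne hij with h | h
    · exact h3 i j h
    · exact (h3 j i h).symm
  have h4 : ∀ j, ∫⁻ x in A j, ENNReal.ofReal (u x ^ κ) =
      ∫⁻ x in Δ ∩ ann 1, ENNReal.ofReal (u x ^ κ) := by
    intro j
    rw [hA, W.scale κ _ (by positivity), hc, Real.rpow_zero, ENNReal.ofReal_one, one_mul]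
  have h5 : ∫⁻ x in Δ ∩ ann 1, ENNReal.ofReal (u x ^ κ) ≠ 0 := by
    intro h6
    obtain ⟨x, hx⟩ := W.nonempty
    have hx0 : 0 < ‖x‖ := norm_pos_iff.2 fun h => W.zero_notMem (h ▸ hx)
    rw [lintegral_eq_zero_iff (W.measurable_pow κ)] at h6
    set U : Set (σ → ℝ) := Δ ∩ {x | 1 < ‖x‖ ∧ ‖x‖ < 2} with hU
    have hUo : IsOpen U := W.isOpen.inter ((isOpen_lt continuous_const continuous_norm).inter
      (isOpen_lt continuous_norm continuous_const))
    have hUn : U.Nonempty := by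
      refine ⟨((3 / 2) / ‖x‖) • x, W.cone x hx _ (by positivity), ?_⟩
      rw [mem_ofPred_eq, norm_smul, Real.norm_eq_abs, abs_of_pos (by positivity),
        div_mul_cancel₀ _ hx0.ne']
      norm_num
    have h7 : (volume : Measure (σ → ℝ)) U ≠ 0 := (hUo.measure_pos volume hUn).ne'
    apply h7
    have h8 : ∀ᵐ x ∂((volume : Measure (σ → ℝ)).restrict (Δ ∩ ann 1)),
        ENNReal.ofReal (u x ^ κ) = 0 := h6
    rw [ae_restrict_iff' (W.isOpen.measurableSet.inter (measurableSet_ann 1))] at h8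
    refine measure_mono_null ?_ h8
    rintro y ⟨hy, hy1, hy2⟩ hy3
    have h9 := hy3 ⟨hy, hy1, by linarith⟩
    rw [ENNReal.ofReal_eq_zero] at h9
    exact absurd (Real.rpow_pos_of_pos (W.pos y hy) κ) (not_lt.2 h9)
  rw [eq_top_iff]
  refine le_trans ?_ (lintegral_mono_set h1)
  have hm : ∀ j, MeasurableSet (A j) := fun j =>
    W.isOpen.measurableSet.inter (measurableSet_ann _)
  rw [lintegral_iUnion hm hdisj, tsum_congr h4, ENNReal.tsum_const_eq_top_of_ne_zero h5]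

end Wedge

end Pool.Agent.Helper48.RC
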