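import Mathlib

set_option autoImplicit false

/-! # Sublevel sets of functions with a large derivative -/

namespace Pool.Agent.Helper48.RC

open MeasureTheory Set

/-- the constants of the sublevel estimate -/
noncomputable def Ksub : ℕ → ℝ
  | 0 => 4
  | m + 1 => 4 + 2 * Ksub m

theorem Ksub_pos (m : ℕ) : 0 < Ksub m := by
  induction m with
  | zero => norm_num [Ksub]
  | succ m ih => rw [Ksub]; positivity

theorem mono_of_deriv {H H' : ℝ → ℝ} (hH : ∀ t, HasDerivAt H (H' t) t) {I : Set ℝ}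
    (hI : I.OrdConnected) {c : ℝ} (hc : ∀ t ∈ I, c ≤ H' t) {x y : ℝ} (hx : x ∈ I) (hy : y ∈ I)
    (hxy : x ≤ y) : c * (y - x) ≤ H y - H x := by
  rcases hxy.eq_or_lt with rfl | hlt
  · simp
  · obtain ⟨z, hz, hz'⟩ := exists_hasDerivAt_eq_slope H H' hlt
      (fun t _ => (hH t).continuousAt.continuousWithinAt) (fun t _ => hH t)
    have h1 := hc z (hI.out hx hy ⟨hz.1.le, hz.2.le⟩)
    rw [hz', le_div_iff₀ (by linarith)] at h1
    exact h1

theorem sublevel_zero {H H' : ℝ → ℝ} (hH : ∀ t, HasDerivAt H (H' t) t) {I : Set ℝ}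
    (hI : I.OrdConnected) {c : ℝ} (hc0 : 0 < c) (hc : ∀ t ∈ I, c ≤ H' t) {ε : ℝ} (hε : 0 < ε) :
    volume (I ∩ {t | |H t| ≤ ε}) ≤ ENNReal.ofReal (4 * (ε / c)) := by
  rcases (I ∩ {t | |H t| ≤ ε}).eq_empty_or_nonempty with h | ⟨t₀, h0, h0'⟩
  · rw [h, measure_empty]
    exact zero_le
  · have h1 : I ∩ {t | |H t| ≤ ε} ⊆ Icc (t₀ - 2 * (ε / c)) (t₀ + 2 * (ε / c)) := by
      rintro t ⟨h2, h3⟩
      have h3' := abs_le.1 (show |H t| ≤ ε from h3)
      have h0'' := abs_le.1 (show |H t₀| ≤ ε from h0')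
      have h4 : ε = c * (ε / c) := by field_simp
      rcases le_total t t₀ with h | h
      · have h5 := mono_of_deriv hH hI hc h2 h0 h
        have h6 : t₀ - t ≤ 2 * (ε / c) := by
          have h7 : c * (t₀ - t) ≤ c * (2 * (ε / c)) := by linarith
          exact le_of_mul_le_mul_left h7 hc0
        have : 0 < ε / c := div_pos hε hc0
        exact ⟨by linarith, by linarith⟩
      · have h5 := mono_of_deriv hH hI hc h0 h2 h
        have h6 : t - t₀ ≤ 2 * (ε / c) := by
          have h7 : c * (t - t₀) ≤ c * (2 * (ε / c)) := by linarith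
          exact le_of_mul_le_mul_left h7 hc0
        have : 0 < ε / c := div_pos hε hc0
        exact ⟨by linarith, by linarith⟩
    refine (measure_mono h1).trans ?_
    rw [Real.volume_Icc]
    apply ENNReal.ofReal_le_ofReal
    linarith

theorem sublevel (m : ℕ) : ∀ (F : ℕ → ℝ → ℝ), (∀ j t, HasDerivAt (F j) (F (j + 1) t) t) →
    ∀ {I : Set ℝ}, I.OrdConnected → ∀ {c : ℝ}, 0 < c → (∀ t ∈ I, c ≤ F (m + 1) t) →
    ∀ {ε : ℝ}, 0 < ε →
    volume (I ∩ {t | |F 0 t| ≤ ε}) ≤
      ENNReal.ofReal (Ksub m * (ε / c) ^ (1 / ((m : ℝ) + 1))) := by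
  induction m with
  | zero =>
    intro F hF I hI c hc0 hc ε hε
    have h1 := sublevel_zero (hF 0) hI hc0 hc hε
    simpa [Ksub] using h1
  | succ m ih =>
    intro F hF I hI c hc0 hc ε hε
    set e : ℝ := 1 / (((m + 1 : ℕ) : ℝ) + 1) with he
    have hεc : 0 < ε / c := div_pos hε hc0
    set δ : ℝ := c * (ε / c) ^ e with hδ
    have hδ0 : 0 < δ := by positivity
    -- the three parts
    have hmid := sublevel_zero (hF (m + 1)) hI hc0 hc hδ0
    set Ip : Set ℝ := {t | t ∈ I ∧ δ ≤ F (m + 1) t} with hIp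
    set In : Set ℝ := {t | t ∈ I ∧ δ ≤ -F (m + 1) t} with hIn
    have hIpo : Ip.OrdConnected := by
      refine ⟨fun x hx y hy z hz => ?_⟩
      have hzI : z ∈ I := hI.out hx.1 hy.1 hz
      refine ⟨hzI, ?_⟩
      have h1 := mono_of_deriv (hF (m + 1)) hI hc hx.1 hzI hz.1
      have h2 : 0 ≤ c * (z - x) := mul_nonneg hc0.le (by linarith [hz.1])
      linarith [hx.2]
    have hIno : In.OrdConnected := by
      refine ⟨fun x hx y hy z hz => ?_⟩
      have hzI : z ∈ I := hI.out hx.1 hy.1 hz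
      refine ⟨hzI, ?_⟩
      have h1 := mono_of_deriv (hF (m + 1)) hI hc hzI hy.1 hz.2
      have h2 : 0 ≤ c * (y - z) := mul_nonneg hc0.le (by linarith [hz.2])
      linarith [hy.2]
    have hp := ih F hF hIpo hδ0 (fun t ht => ht.2) hε
    have hn := ih (fun j t => -F j t) (fun j t => (hF j t).neg) hIno hδ0 (fun t ht => ht.2) hε
    simp only [abs_neg] at hn
    have hcov : I ∩ {t | |F 0 t| ≤ ε} ⊆ (I ∩ {t | |F (m + 1) t| ≤ δ}) ∪
        ((Ip ∩ {t | |F 0 t| ≤ ε}) ∪ (In ∩ {t | |F 0 t| ≤ ε})) := by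
      rintro t ⟨h1, h2⟩
      by_cases h3 : |F (m + 1) t| ≤ δ
      · exact Or.inl ⟨h1, h3⟩
      · rw [not_le, lt_abs] at h3
        rcases h3 with h3 | h3
        · exact Or.inr (Or.inl ⟨⟨h1, h3.le⟩, h2⟩)
        · exact Or.inr (Or.inr ⟨⟨h1, h3.le⟩, h2⟩)
    have hK : 0 < Ksub m := Ksub_pos m
    have hexp : (ε / δ) ^ (1 / ((m : ℝ) + 1)) = (ε / c) ^ e := by
      have h1 : ε / δ = (ε / c) ^ (1 - e) := by
        rw [Real.rpow_sub hεc, Real.rpow_one, hδ]
        field_simp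
      rw [h1, ← Real.rpow_mul hεc.le]
      congr 1
      rw [he]
      push_cast
      have h2 : (m : ℝ) + 1 ≠ 0 := by positivity
      have h3 : (m : ℝ) + 1 + 1 ≠ 0 := by positivity
      field_simp
      ring
    have hδc : δ / c = (ε / c) ^ e := by
      rw [hδ]
      field_simp
    rw [hexp] at hp hn
    rw [hδc] at hmid
    have hpe : 0 ≤ (ε / c) ^ e := by positivity
    calc volume (I ∩ {t | |F 0 t| ≤ ε}) ≤ ENNReal.ofReal (4 * (ε / c) ^ e) +
        (ENNReal.ofReal (Ksub m * (ε / c) ^ e) + ENNReal.ofReal (Ksub m * (ε / c) ^ e)) := by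
          refine (measure_mono hcov).trans ((measure_union_le _ _).trans (add_le_add hmid ?_))
          exact (measure_union_le _ _).trans (add_le_add hp hn)
      _ = ENNReal.ofReal (Ksub (m + 1) * (ε / c) ^ e) := by
          rw [← ENNReal.ofReal_add (by positivity) (by positivity),
            ← ENNReal.ofReal_add (by positivity) (by positivity), Ksub]
          congr 1
          ring

end Pool.Agent.Helper48.RC
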