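import Pool.Agent.Helper48.RC.Scale
import Pool.Agent.Helper48.RC.Ibp
import Pool.Agent.Helper48.RC.Growth

set_option autoImplicit false

/-! # The local zeta functions of a wedge -/

namespace Pool.Agent.Helper48.RC

open MvPolynomial MeasureTheory Filter Topology ProbabilityTheory

variable {σ : Type} [Fintype σ]

/-- Lebesgue measure on a truncated cone -/
noncomputable def base (Δ : Set (σ → ℝ)) : Measure (σ → ℝ) :=
  volume.restrict (Δ ∩ {x | ‖x‖ ≤ 2})

/-- the measure with the positive part of `ψ` as density -/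
noncomputable def nu (Δ : Set (σ → ℝ)) (ψ : (σ → ℝ) → ℝ) : Measure (σ → ℝ) :=
  (base Δ).withDensity (fun x => ENNReal.ofReal (ψ x))

/-- the local zeta function `∫_Δ u ^ z ψ` -/
noncomputable def J (u : (σ → ℝ) → ℝ) (Δ : Set (σ → ℝ)) (ψ : (σ → ℝ) → ℝ) (z : ℂ) : ℂ :=
  complexMGF (fun x => Real.log (u x)) (nu Δ ψ) z -
    complexMGF (fun x => Real.log (u x)) (nu Δ (fun x => -ψ x)) z

variable {u : (σ → ℝ) → ℝ} {d : ℕ} {Δ : Set (σ → ℝ)}

namespace Wedge

variable (W : Wedge u d Δ)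

include W

theorem measurableSet_base : MeasurableSet (Δ ∩ {x | ‖x‖ ≤ 2}) :=
  W.isOpen.measurableSet.inter (measurableSet_le measurable_norm measurable_const)

theorem ae_base : ∀ᵐ x ∂(base Δ), x ∈ Δ ∧ ‖x‖ ≤ 2 := by
  rw [base, ae_restrict_iff' W.measurableSet_base]
  exact Eventually.of_forall fun x hx => hx

theorem int_base (t : ℝ) (ht : -((Fintype.card σ : ℝ) / d) < t) :
    Integrable (fun x => u x ^ t) (base Δ) := by
  rw [← neg_div] at ht
  refine ⟨(W.cont.measurable.pow_const t).aestronglyMeasurable, ?_⟩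
  rw [hasFiniteIntegral_iff_ofReal]
  · exact W.lint_ball t ht
  · filter_upwards [W.ae_base] with x hx
    exact Real.rpow_nonneg (W.pos x hx.1).le _

omit W in
theorem test_bound {ψ : (σ → ℝ) → ℝ} (hψ : Test ψ) : ∃ C : ℝ, 0 ≤ C ∧ ∀ x, |ψ x| ≤ C := by
  obtain ⟨C, hC⟩ := hψ.hasCompactSupport.exists_bound_of_continuous hψ.smooth.continuous
  exact ⟨C, (norm_nonneg _).trans (hC 0), hC⟩

theorem integrable_density {ψ : (σ → ℝ) → ℝ} (hψ : Test ψ) (t : ℝ)
    (ht : -((Fintype.card σ : ℝ) / d) < t) :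
    Integrable (fun x => u x ^ t * max (ψ x) 0) (base Δ) := by
  obtain ⟨C, hC0, hC⟩ := test_bound hψ
  have h1 := (W.int_base t ht).mul_const C
  refine Integrable.mono' h1 ?_ ?_
  · exact ((W.cont.measurable.pow_const t).mul
      (hψ.smooth.continuous.measurable.max measurable_const)).aestronglyMeasurable
  · filter_upwards [W.ae_base] with x hx
    have h2 : 0 ≤ u x ^ t := Real.rpow_nonneg (W.pos x hx.1).le _
    rw [Real.norm_eq_abs, abs_mul, abs_of_nonneg h2, abs_of_nonneg (le_max_right _ _)]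
    exact mul_le_mul_of_nonneg_left (max_le ((le_abs_self _).trans (hC x)) hC0) h2

theorem exp_log_ae (t : ℝ) (ψ : (σ → ℝ) → ℝ) :
    (fun x => Real.exp (t * Real.log (u x)) * (ENNReal.ofReal (ψ x)).toReal) =ᵐ[base Δ]
      fun x => u x ^ t * max (ψ x) 0 := by
  filter_upwards [W.ae_base] with x hx
  rw [Real.rpow_def_of_pos (W.pos x hx.1), mul_comm t, ENNReal.toReal_ofReal']

theorem integrable_nu {ψ : (σ → ℝ) → ℝ} (hψ : Test ψ) (t : ℝ)
    (ht : -((Fintype.card σ : ℝ) / d) < t) :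
    Integrable (fun x => Real.exp (t * Real.log (u x))) (nu Δ ψ) := by
  rw [nu, integrable_withDensity_iff hψ.smooth.continuous.measurable.ennreal_ofReal
    (Eventually.of_forall fun x => ENNReal.ofReal_lt_top)]
  exact (W.integrable_density hψ t ht).congr (W.exp_log_ae t ψ).symm

theorem mgf_nu {ψ : (σ → ℝ) → ℝ} (hψ : Test ψ) (t : ℝ) :
    mgf (fun x => Real.log (u x)) (nu Δ ψ) t = ∫ x, u x ^ t * max (ψ x) 0 ∂(base Δ) := by
  rw [mgf, nu, integral_withDensity_eq_integral_toReal_smul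
    hψ.smooth.continuous.measurable.ennreal_ofReal
    (Eventually.of_forall fun x => ENNReal.ofReal_lt_top)]
  refine integral_congr_ae ?_
  filter_upwards [W.exp_log_ae t ψ] with x hx
  rw [smul_eq_mul, mul_comm]
  exact hx

theorem J_diff {ψ : (σ → ℝ) → ℝ} (hψ : Test ψ) :
    DifferentiableOn ℂ (J u Δ ψ) {z | -((Fintype.card σ : ℝ) / d) < z.re} := by
  have h1 : ∀ {χ : (σ → ℝ) → ℝ}, Test χ → DifferentiableOn ℂ
      (complexMGF (fun x => Real.log (u x)) (nu Δ χ))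
      {z | -((Fintype.card σ : ℝ) / d) < z.re} := by
    intro χ hχ
    refine differentiableOn_complexMGF.mono fun z hz => ?_
    have h2 : Set.Ioi (-((Fintype.card σ : ℝ) / d)) ⊆
        integrableExpSet (fun x => Real.log (u x)) (nu Δ χ) := fun t ht => W.integrable_nu hχ t ht
    exact interior_maximal h2 isOpen_Ioi hz
  exact (h1 hψ).sub (h1 hψ.neg)

/-- the growth of the zeta function -/
theorem J_bound {M : ℝ} (hM1 : 1 ≤ M) (hM : ∀ x : σ → ℝ, ‖x‖ ≤ 2 → |u x| ≤ M)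
    {ψ : (σ → ℝ) → ℝ} (hψ : Test ψ) :
    ∃ A : ℝ, 0 ≤ A ∧ ∀ z : ℂ, -((Fintype.card σ : ℝ) / d) + 1 ≤ z.re →
      ‖J u Δ ψ z‖ ≤ A * M ^ z.re := by
  set κ : ℝ := (Fintype.card σ : ℝ) / d with hκ
  obtain ⟨C, hC0, hC⟩ := test_bound hψ
  set t0 : ℝ := -κ + 1 with ht0
  have hI : 0 ≤ ∫ x, u x ^ t0 ∂(base Δ) := by
    refine integral_nonneg_of_ae ?_
    filter_upwards [W.ae_base] with x hx
    exact Real.rpow_nonneg (W.pos x hx.1).le _
  have hMpos : 0 < M := by linarith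
  -- the bound for one part
  have key : ∀ {χ : (σ → ℝ) → ℝ}, Test χ → (∀ x, |χ x| ≤ C) → ∀ z : ℂ, t0 ≤ z.re →
      ‖complexMGF (fun x => Real.log (u x)) (nu Δ χ) z‖ ≤
        (C * M ^ (-t0) * ∫ x, u x ^ t0 ∂(base Δ)) * M ^ z.re := by
    intro χ hχ hχC z hz
    refine norm_complexMGF_le_mgf.trans ?_
    rw [W.mgf_nu hχ]
    have h1 : ∫ x, u x ^ z.re * max (χ x) 0 ∂(base Δ) ≤
        ∫ x, (C * M ^ (z.re - t0)) * u x ^ t0 ∂(base Δ) := by
      refine integral_mono_ae (W.integrable_density hχ _ (by linarith))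
        ((W.int_base t0 (by linarith)).const_mul _) ?_
      filter_upwards [W.ae_base] with x hx
      have hpos := W.pos x hx.1
      have h2 : u x ^ z.re = u x ^ (z.re - t0) * u x ^ t0 := by
        rw [← Real.rpow_add hpos]
        congr 1
        ring
      have h3 : u x ^ (z.re - t0) ≤ M ^ (z.re - t0) :=
        Real.rpow_le_rpow hpos.le ((le_abs_self _).trans (hM x hx.2)) (by linarith)
      have h4 : 0 ≤ u x ^ t0 := Real.rpow_nonneg hpos.le _
      have h5 : max (χ x) 0 ≤ C := max_le ((le_abs_self _).trans (hχC x)) hC0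
      calc u x ^ z.re * max (χ x) 0 = (u x ^ (z.re - t0) * u x ^ t0) * max (χ x) 0 := by rw [h2]
        _ ≤ (M ^ (z.re - t0) * u x ^ t0) * C := by
          refine mul_le_mul (mul_le_mul_of_nonneg_right h3 h4) h5 (le_max_right _ _) ?_
          positivity
        _ = (C * M ^ (z.re - t0)) * u x ^ t0 := by ring
    refine h1.trans (le_of_eq ?_)
    rw [integral_const_mul, sub_eq_add_neg, Real.rpow_add hMpos]
    ring
  refine ⟨2 * (C * M ^ (-t0) * ∫ x, u x ^ t0 ∂(base Δ)), by positivity, fun z hz => ?_⟩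
  have h1 := key hψ hC z hz
  have h2 := key hψ.neg (fun x => by rw [abs_neg]; exact hC x) z hz
  rw [J]
  refine (norm_sub_le _ _).trans ?_
  linarith

/-- the value at an integer -/
theorem J_nat {ψ : (σ → ℝ) → ℝ} (hψ : Test ψ) (s : ℕ) :
    J u Δ ψ (s : ℂ) = ((∫ x in Δ, u x ^ s * ψ x : ℝ) : ℂ) := by
  have hs : -((Fintype.card σ : ℝ) / d) < (s : ℝ) := by
    have h1 : (0 : ℝ) < (Fintype.card σ : ℝ) := by exact_mod_cast W.card_pos
    have h2 : (0 : ℝ) < d := by exact_mod_cast W.dpos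
    have h3 : 0 < (Fintype.card σ : ℝ) / d := div_pos h1 h2
    have h4 : (0 : ℝ) ≤ (s : ℝ) := Nat.cast_nonneg s
    linarith
  have h1 : ((s : ℝ) : ℂ) = (s : ℂ) := by norm_cast
  rw [J, ← h1, complexMGF_ofReal, complexMGF_ofReal, W.mgf_nu hψ, W.mgf_nu hψ.neg,
    ← Complex.ofReal_sub, ← integral_sub (W.integrable_density hψ _ hs)
      (W.integrable_density hψ.neg _ hs)]
  congr 1
  have h2 : ∫ x in Δ, u x ^ s * ψ x = ∫ x in Δ ∩ {x | ‖x‖ ≤ 2}, u x ^ s * ψ x := by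
    apply setIntegral_eq_of_subset_of_forall_sdiff_eq_zero W.isOpen.measurableSet
      Set.inter_subset_left
    rintro x ⟨hx1, hx2⟩
    have h3 : 2 < ‖x‖ := by
      by_contra h4
      exact hx2 ⟨hx1, not_lt.1 h4⟩
    rw [hψ.supp x h3, mul_zero]
  rw [h2, base]
  refine integral_congr_ae (Eventually.of_forall fun x => ?_)
  change u x ^ (s : ℝ) * max (ψ x) 0 - u x ^ (s : ℝ) * max (-ψ x) 0 = u x ^ s * ψ x
  rw [Real.rpow_natCast, ← mul_sub]
  congr 1
  rcases le_total 0 (ψ x) with h | h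
  · rw [max_eq_left h, max_eq_right (by linarith), sub_zero]
  · rw [max_eq_right h, max_eq_left (by linarith)]
    ring

theorem J_PB {M : ℝ} (hM1 : 1 ≤ M) (hM : ∀ x : σ → ℝ, ‖x‖ ≤ 2 → |u x| ≤ M)
    {ψ : (σ → ℝ) → ℝ} (hψ : Test ψ) : PB ((Fintype.card σ : ℝ) / d) M (J u Δ ψ) := by
  obtain ⟨A, hA, hA'⟩ := W.J_bound hM1 hM hψ
  exact ⟨W.J_diff hψ, A, hA, 0, fun z hz => by simpa using hA' z hz⟩

/-- the values of a sequence are interpolated by a function of controlled growth, bounded near the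
critical point -/
def Good (κ M : ℝ) (e : ℕ → ℝ) : Prop :=
  ∃ G : ℂ → ℂ, PB κ M G ∧
    (∃ C : ℝ, ∀ t : ℝ, -κ < t → t < -κ + 1 → ‖G t‖ ≤ C) ∧ ∀ᶠ s : ℕ in atTop, G s = e s

omit W in
theorem good_zero {κ M : ℝ} : Good κ M (fun _ => 0) :=
  ⟨fun _ => 0, PB.zero, ⟨0, fun t _ _ => by simp⟩, Eventually.of_forall fun s => by simp⟩

omit W in
theorem Good.add {κ M : ℝ} (hM : 0 < M) {e₁ e₂ : ℕ → ℝ} (h₁ : Good κ M e₁) (h₂ : Good κ M e₂) :
    Good κ M (fun s => e₁ s + e₂ s) := by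
  obtain ⟨G₁, hG₁, ⟨C₁, hC₁⟩, he₁⟩ := h₁
  obtain ⟨G₂, hG₂, ⟨C₂, hC₂⟩, he₂⟩ := h₂
  refine ⟨fun z => G₁ z + G₂ z, hG₁.add hM hG₂, ⟨C₁ + C₂, fun t h1 h2 => ?_⟩, ?_⟩
  · exact (norm_add_le _ _).trans (add_le_add (hC₁ t h1 h2) (hC₂ t h1 h2))
  · filter_upwards [he₁, he₂] with s h1 h2
    rw [h1, h2, Complex.ofReal_add]

end Wedge

end Pool.Agent.Helper48.RC
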